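import Pool.Agent.N102.FL.LSys

/-!
Project FL, second part (helper102): monomials, ascent of log uniformization and local
uniformization of local rings.
-/

set_option autoImplicit false
set_option linter.unusedVariables false
set_option linter.unusedSectionVars false

universe u

open Pool.Agent.TH214.SD Pool.Agent.W418.LU2

namespace Pool.Agent.N102.FL

section mon

variable {E K : Type u} [Field E] [Field K] [Algebra E K] {Θ : Type} [Fintype Θ] {y : Θ → K}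

lemma Mon.one : Mon E y 1 := ⟨1, 0, one_ne_zero, by rw [map_one, mo_zero, mul_one]⟩

lemma Mon.mul (hy : ∀ θ, y θ ≠ 0) {u w : K} (hu : Mon E y u) (hw : Mon E y w) :
    Mon E y (u * w) := by
  obtain ⟨a, m, ha, rfl⟩ := hu
  obtain ⟨b, l, hb, rfl⟩ := hw
  refine ⟨a * b, m + l, mul_ne_zero ha hb, ?_⟩
  rw [map_mul, mo_add hy]
  ring

lemma Mon.inv {u : K} (hu : Mon E y u) : Mon E y u⁻¹ := by
  obtain ⟨a, m, ha, rfl⟩ := hu
  refine ⟨a⁻¹, -m, inv_ne_zero ha, ?_⟩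
  rw [map_inv₀, mo_neg, mul_inv]

lemma Mon.of (θ : Θ) : Mon E y (y θ) := by
  classical
  exact ⟨1, Pi.single θ 1, one_ne_zero, by rw [map_one, one_mul, mo_single]⟩

lemma Mon.const {a : E} (ha : a ≠ 0) : Mon E y (algebraMap E K a) :=
  ⟨a, 0, ha, by rw [mo_zero, mul_one]⟩

end mon

section cov

variable {k E K : Type u} [Field k] [Field E] [Field K] [Algebra k K] [Algebra E K]
  {p s n : ℕ} {e : Fin s → ℕ} {z : Fin s → K} {x : Fin n → K}

/-- The element `w` is a monomial as soon as the `x j` and the elements of `F` are among the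
coordinates. -/
def Cov (E : Type u) {K : Type u} [Field E] [Field K] [Algebra E K] {n : ℕ} (x : Fin n → K)
    (F : Set K) (w : K) : Prop :=
  ∀ (Θ : Type) [Fintype Θ] (y : Θ → K), (∀ θ, y θ ≠ 0) → (∀ j, ∃ θ, y θ = x j) →
    (∀ g ∈ F, ∃ θ, y θ = g) → Mon E y w

lemma Cov.mono {F F' : Set K} (h : F ⊆ F') {w : K} (hw : Cov E x F w) : Cov E x F' w :=
  fun Θ _ y h1 h2 h3 => hw Θ y h1 h2 fun g hg => h3 g (h hg)

lemma exists_cov_one {u : Kˣ} (hu : u ∈ monomials k E p e z x) :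
    ∃ F : Set K, F.Finite ∧ (∀ g ∈ F, g ≠ 0 ∧ IsLinearForm k p e z g) ∧ Cov E x F (u : K) := by
  unfold monomials at hu
  induction hu using Subgroup.closure_induction with
  | mem u hu =>
    rcases hu with ⟨a, ha⟩ | ⟨j, hj⟩ | hl
    · refine ⟨∅, Set.finite_empty, by simp, ?_⟩
      intro Θ _ y _ _ _
      rw [← ha]
      refine Mon.const ?_
      rintro rfl
      rw [map_zero] at ha
      exact u.ne_zero ha.symm
    · refine ⟨∅, Set.finite_empty, by simp, ?_⟩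
      intro Θ _ y _ h2 _
      obtain ⟨θ, hθ⟩ := h2 j
      rw [hj, ← hθ]
      exact Mon.of θ
    · refine ⟨{(u : K)}, Set.finite_singleton _, ?_, ?_⟩
      · rintro g rfl
        exact ⟨u.ne_zero, hl⟩
      · intro Θ _ y _ _ h3
        obtain ⟨θ, hθ⟩ := h3 _ rfl
        rw [← hθ]
        exact Mon.of θ
  | one =>
    refine ⟨∅, Set.finite_empty, by simp, ?_⟩
    intro Θ _ y _ _ _
    rw [Units.val_one]
    exact Mon.one
  | mul u w _ _ hu hw =>
    obtain ⟨F, h1, h2, h3⟩ := hu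
    obtain ⟨F', h1', h2', h3'⟩ := hw
    refine ⟨F ∪ F', h1.union h1', ?_, ?_⟩
    · rintro g (hg | hg)
      · exact h2 g hg
      · exact h2' g hg
    · intro Θ _ y hy hx hF
      rw [Units.val_mul]
      exact Mon.mul hy (h3.mono Set.subset_union_left Θ y hy hx hF)
        (h3'.mono Set.subset_union_right Θ y hy hx hF)
  | inv u _ hu =>
    obtain ⟨F, h1, h2, h3⟩ := hu
    refine ⟨F, h1, h2, ?_⟩
    intro Θ _ y hy hx hF
    rw [Units.val_inv_eq_inv_val]
    exact (h3 Θ y hy hx hF).inv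

lemma exists_cov {S : Set K} (hS : S.Finite)
    (hSm : ∀ w ∈ S, ∃ u ∈ monomials k E p e z x, (u : K) = w) :
    ∃ (b : ℕ) (g : Fin b → K), (∀ i, g i ≠ 0) ∧ (∀ i, IsLinearForm k p e z (g i)) ∧
      ∀ (Θ : Type) [Fintype Θ] (y : Θ → K), (∀ θ, y θ ≠ 0) → (∀ j, ∃ θ, y θ = x j) →
        (∀ i, ∃ θ, y θ = g i) → ∀ w ∈ S, Mon E y w := by
  have h1 : ∀ w : S, ∃ F : Set K, F.Finite ∧ (∀ g ∈ F, g ≠ 0 ∧ IsLinearForm k p e z g) ∧
      Cov E x F (w : K) := by
    rintro ⟨w, hw⟩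
    obtain ⟨u, hu, rfl⟩ := hSm w hw
    exact exists_cov_one hu
  choose F hF1 hF2 hF3 using h1
  have : Finite S := hS
  obtain ⟨b, g, -, hg⟩ := (Set.finite_iUnion hF1).fin_param
  refine ⟨b, g, ?_, ?_, ?_⟩
  · intro i
    have h2 : g i ∈ ⋃ w, F w := by
      rw [← hg]
      exact ⟨i, rfl⟩
    obtain ⟨w, hw⟩ := Set.mem_iUnion.1 h2
    exact (hF2 w _ hw).1
  · intro i
    have h2 : g i ∈ ⋃ w, F w := by
      rw [← hg]
      exact ⟨i, rfl⟩
    obtain ⟨w, hw⟩ := Set.mem_iUnion.1 h2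
    exact (hF2 w _ hw).2
  · intro Θ _ y hy hx hgi w hw
    refine (hF3 ⟨w, hw⟩).mono (Set.subset_iUnion F _) Θ y hy hx ?_
    intro g' hg'
    rw [← hg] at hg'
    obtain ⟨i, rfl⟩ := hg'
    exact hgi i

/-- Conversely. -/
lemma monomial_of_mon {Θ : Type} [Fintype Θ] {y : Θ → K} (hy : ∀ θ, y θ ≠ 0)
    (hyf : ∀ θ, (∃ j, y θ = x j) ∨ IsLinearForm k p e z (y θ)) {w : K} (hw : Mon E y w) :
    ∃ u ∈ monomials k E p e z x, (u : K) = w := by
  obtain ⟨a, m, ha, rfl⟩ := hw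
  have ha' : algebraMap E K a ≠ 0 := (map_ne_zero (algebraMap E K)).2 ha
  refine ⟨Units.mk0 _ ha' * ∏ θ, (Units.mk0 _ (hy θ)) ^ m θ, ?_, ?_⟩
  · refine Subgroup.mul_mem _ (Subgroup.subset_closure (Or.inl ⟨a, rfl⟩)) ?_
    refine Subgroup.prod_mem _ fun θ _ => Subgroup.zpow_mem _ (Subgroup.subset_closure ?_) _
    rcases hyf θ with ⟨j, hj⟩ | h
    · exact Or.inr (Or.inl ⟨j, hj⟩)
    · exact Or.inr (Or.inr h)
  · rw [Units.val_mul, Units.val_mk0, Units.coe_prod]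
    unfold mo
    congr 1
    exact Finset.prod_congr rfl fun θ _ => by rw [Units.val_zpow_eq_zpow_val, Units.val_mk0]

end cov

section mult

variable {k E K : Type u} [Field k] [Field E] [Field K] [Algebra k E] [Algebra k K] [Algebra E K]
  [IsScalarTower k E K] {p s n : ℕ} {e : Fin s → ℕ} {z : Fin s → K}

/-- The elements of `K` with a nonzero multiple in `A` with a factor in `R`. -/
def multSub (R : Subring E) (A : Subring K) (hRA : ∀ a ∈ R, algebraMap E K a ∈ A) :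
    Subring K where
  carrier := {w | ∃ b ∈ R, b ≠ 0 ∧ algebraMap E K b * w ∈ A}
  mul_mem' := by
    rintro u w ⟨b, hb, hb0, hu⟩ ⟨b', hb', hb0', hw⟩
    refine ⟨b * b', R.mul_mem hb hb', mul_ne_zero hb0 hb0', ?_⟩
    have h : algebraMap E K (b * b') * (u * w) =
        (algebraMap E K b * u) * (algebraMap E K b' * w) := by
      rw [map_mul]
      ring
    rw [h]
    exact A.mul_mem hu hw
  one_mem' := ⟨1, R.one_mem, one_ne_zero, by
    rw [map_one, one_mul]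
    exact A.one_mem⟩
  add_mem' := by
    rintro u w ⟨b, hb, hb0, hu⟩ ⟨b', hb', hb0', hw⟩
    refine ⟨b * b', R.mul_mem hb hb', mul_ne_zero hb0 hb0', ?_⟩
    have h : algebraMap E K (b * b') * (u + w) =
        algebraMap E K b' * (algebraMap E K b * u) +
          algebraMap E K b * (algebraMap E K b' * w) := by
      rw [map_mul]
      ring
    rw [h]
    exact A.add_mem (A.mul_mem (hRA b' hb') hu) (A.mul_mem (hRA b hb) hw)
  zero_mem' := ⟨1, R.one_mem, one_ne_zero, by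
    rw [mul_zero]
    exact A.zero_mem⟩
  neg_mem' := by
    rintro u ⟨b, hb, hb0, hu⟩
    exact ⟨b, hb, hb0, by
      rw [mul_neg]
      exact A.neg_mem hu⟩

lemma form_mult {R : Subring E} {A : Subring K} (hRA : ∀ a ∈ R, algebraMap E K a ∈ A)
    (hfr : ∀ w : E, ∃ a ∈ R, ∃ b ∈ R, b ≠ 0 ∧ w = a * b⁻¹)
    (hz : ∀ t, ∃ b ∈ R, b ≠ 0 ∧ algebraMap E K b * z t ∈ A) {g : K}
    (hg : IsLinearForm k p e z g) : ∃ b ∈ R, b ≠ 0 ∧ algebraMap E K b * g ∈ A := by
  change g ∈ multSub R A hRA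
  have hE : ∀ a : E, algebraMap E K a ∈ multSub R A hRA := by
    intro a
    obtain ⟨a', ha', b, hb, hb0, rfl⟩ := hfr a
    refine ⟨b, hb, hb0, ?_⟩
    rw [← map_mul, mul_comm a', ← mul_assoc, mul_inv_cancel₀ hb0, one_mul]
    exact hRA a' ha'
  obtain ⟨f, hf⟩ := hg
  induction hf using Submodule.span_induction with
  | mem w hw =>
    rcases hw with rfl | ⟨t, -, rfl⟩
    · exact Subring.one_mem _
    · exact Subring.pow_mem _ (hz t) _
  | zero => exact Subring.zero_mem _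
  | add u w _ _ hu hw => exact Subring.add_mem _ hu hw
  | smul a w _ hw =>
    rw [Algebra.smul_def, IsScalarTower.algebraMap_apply k E K]
    exact Subring.mul_mem _ (hE _) hw

end mult

section main

variable {p : ℕ} [Fact p.Prime] {k E K : Type u} [Field k] [PerfectField k] [CharP k p] [Field E]
  [Field K] [Algebra k E] [Algebra k K] [Algebra E K] [IsScalarTower k E K] {h s n q c : ℕ}
  {v : Fin h → E} {e : Fin s → ℕ} {z : Fin s → K} {x : Fin n → K}
  {G : Fin q → (Fin (h + s) ⊕ Fin n → ℤ) →₀ k}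

/-- The ideal is not zero and generated by finitely many monomials (and zero). -/
def MIdeal (k E : Type u) {K : Type u} [Field k] [Field E] [Field K] [Algebra k K]
    [Algebra E K] (p : ℕ) {s n : ℕ} (e : Fin s → ℕ) (z : Fin s → K) (x : Fin n → K)
    {A : Subring K} (I : Ideal A) : Prop :=
  I ≠ ⊥ ∧ ∃ S : Set A, S.Finite ∧
    (∀ a ∈ S, (a : K) ≠ 0 → ∃ u ∈ monomials k E p e z x, (u : K) = a) ∧ I = Ideal.span S

/-- Ascent of log uniformization. -/
theorem ascent_core (hsys : S_SYS.{u}) (hasc : S_ASC.{u})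
    (hB : IsLeveledSystemOver (E := E) p c v e z x G) (V : ValuationSubring K)
    (hkV : ∀ a : k, algebraMap k K a ∈ V) (R : Subring E) [IsNoetherianRing R]
    (hfr : ∀ w : E, ∃ a ∈ R, ∃ b ∈ R, b ≠ 0 ∧ w = a * b⁻¹)
    (hRV : ∀ a ∈ R, algebraMap E K a ∈ V) (hLU : LogUnif (V.comap (algebraMap E K)) R)
    (A : Subring K) (M : Set K) (hM : M.Finite)
    (hMm : ∀ w ∈ M, ∃ u ∈ monomials k E p e z x, (u : K) = w)
    (hA : A = Subring.closure ((R.map (algebraMap E K) : Set K) ∪ M)) (hAV : A ≤ V.toSubring)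
    (hzA : ∀ t, ∃ b ∈ R, b ≠ 0 ∧ algebraMap E K b * z t ∈ A)
    (hxA : ∀ j, ∃ b ∈ R, b ≠ 0 ∧ algebraMap E K b * x j ∈ A)
    (D I₀ : Ideal A) (hD : MIdeal k E p e z x D) (hI₀ : MIdeal k E p e z x I₀) :
    ∃ I₁ : Ideal A, MIdeal k E p e z x I₁ ∧ LogDesing V A D (I₀ * I₁) := by
  classical
  obtain ⟨hD0, SD, hSD1, hSD2, hSD3⟩ := hD
  obtain ⟨hI0, SI, hSI1, hSI2, hSI3⟩ := hI₀
  obtain ⟨b, g, hg0, hg, hcov⟩ := exists_cov (k := k) (E := E) (p := p) (e := e) (z := z)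
    (x := x) (S := M ∪ {w | w ≠ 0 ∧ ∃ a ∈ SD ∪ SI, (a : K) = w})
    (hM.union (((hSD1.union hSI1).image (fun a : A => (a : K))).subset (by
      rintro w ⟨-, a, ha, rfl⟩
      exact ⟨a, ha, rfl⟩))) (by
      rintro w (hw | ⟨hw0, a, ha | ha, rfl⟩)
      · exact hMm w hw
      · exact hSD2 a ha hw0
      · exact hSI2 a ha hw0)
  obtain ⟨Θ, _, y, 𝒮, hy, hgen, hok, hc0, htr, hyf, hyx, hyg⟩ :=
    exists_system hsys hB V hkV b g hg0 hg
  have hcov' := hcov Θ y hy hyx hyg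
  have hRA : ∀ a ∈ R, algebraMap E K a ∈ A := by
    intro a ha
    rw [hA]
    exact Subring.subset_closure (Or.inl ⟨a, ha, rfl⟩)
  obtain ⟨I₁, ⟨h1, S1, h2, h3, h4⟩, h5⟩ := hasc E K V R hfr hRV hLU Θ y hy hgen 𝒮 hok hc0 htr
    A M hM (fun w hw => hcov' w (Or.inl hw)) hA hAV (by
      intro θ
      rcases hyf θ with ⟨j, hj⟩ | hl
      · rw [hj]
        exact hxA j
      · exact form_mult hRA hfr hzA hl) D I₀
    ⟨hD0, SD, hSD1, fun a ha ha0 => hcov' _ (Or.inr ⟨ha0, a, Or.inl ha, rfl⟩), hSD3⟩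
    ⟨hI0, SI, hSI1, fun a ha ha0 => hcov' _ (Or.inr ⟨ha0, a, Or.inr ha, rfl⟩), hSI3⟩
  exact ⟨I₁, ⟨h1, S1, h2, fun a ha ha0 => monomial_of_mon hy hyf (h3 a ha ha0), h4⟩, h5⟩

/-- Local uniformization of local rings. -/
theorem local_core (hsys : S_SYS.{u}) (hoff : S_OFF.{u})
    (hB : IsLeveledSystemOver (E := E) p c v e z x G) (R₀ : Subring E) (hLU : HasLU R₀)
    (hk : ∀ a : k, algebraMap k E a ∈ R₀)
    (A : Subring K) (M : Set K) (hM : M.Finite)
    (hMm : ∀ w ∈ M, ∃ u ∈ monomials k E p e z x, (u : K) = w)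
    (hA : A = Subring.closure ((R₀.map (algebraMap E K) : Set K) ∪ M))
    (P : Ideal A) [P.IsPrime] (R : Type u) [CommRing R] [Algebra A R]
    [IsLocalization.AtPrime R P] [Algebra R K] [IsScalarTower A R K] (V : ValuationSubring K)
    (hV1 : ∀ r : R, algebraMap R K r ∈ V)
    (hV2 : ∀ r : R, r ∈ nonunits R ↔ V.valuation (algebraMap R K r) < 1) :
    ∃ B : Subalgebra R K, B.FG ∧ (∀ b : B, (b : K) ∈ V) ∧
      ∃ Q : Ideal B, ∃ (_ : Q.IsPrime),
        (∀ b : B, b ∈ Q ↔ V.valuation (b : K) < 1) ∧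
        IsRegularLocalRing (Localization.AtPrime Q) := by
  classical
  have hkV : ∀ a : k, algebraMap k K a ∈ V := by
    intro a
    have h1 : algebraMap k K a ∈ A := by
      rw [hA, IsScalarTower.algebraMap_apply k E K]
      exact Subring.subset_closure (Or.inl ⟨_, hk a, rfl⟩)
    have h2 := hV1 (algebraMap A R ⟨_, h1⟩)
    rw [← IsScalarTower.algebraMap_apply A R K] at h2
    exact h2
  obtain ⟨b, g, hg0, hg, hcov⟩ := exists_cov hM hMm
  obtain ⟨Θ, _, y, 𝒮, hy, hgen, hok, hc0, htr, hyf, hyx, hyg⟩ :=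
    exists_system hsys hB V hkV b g hg0 hg
  have hcov' := hcov Θ y hy hyx hyg
  exact hoff E K R₀ hLU Θ y hy hgen A M hM hcov' hA P R V hV1 hV2 𝒮 hok hc0 htr

end main

end Pool.Agent.N102.FL
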