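import Mathlib

/-!
Project FL (helper102): systems of linear relations between powers `z t ^ (p ^ e t)`, `p` the
characteristic. Definitions and statements of the parts.
-/

set_option autoImplicit false

universe u

namespace Pool.Agent.N102.FL

section laurent

variable {k κ K : Type u} [Field k] [Field κ] [Algebra k κ] [Field K] [Algebra k K]
  {J Jv : Type} [Fintype J] [Fintype Jv]

/-- The exponents of the initial form of the Laurent polynomial `G` with respect to the
weights `l`. -/
def face (G : (J → ℤ) →₀ k) (l : J → ℤ) : Finset (J → ℤ) :=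
  G.support.filter fun m => ∀ m' ∈ G.support, ∑ j, l j * m j ≤ ∑ j, l j * m' j

/-- The value of the initial form of `G` at the point `z`. -/
noncomputable def vl (G : (J → ℤ) →₀ k) (l : J → ℤ) (z : J → κ) : κ :=
  ∑ m ∈ face G l, algebraMap k κ (G m) * ∏ j, z j ^ m j

/-- The logarithmic gradient of the initial form in the directions of `e`. -/
noncomputable def gv (G : (J → ℤ) →₀ k) (e : Jv ↪ J) (l : J → ℤ) (z : J → κ) : Jv → κ :=
  fun b => ∑ m ∈ face G l, algebraMap k κ (G m) * (m (e b) : κ) * ∏ j, z j ^ m j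

/-- The value of the Laurent polynomial `G` at `z`. -/
noncomputable def lv (G : (J → ℤ) →₀ k) (z : J → K) : K :=
  ∑ m ∈ G.support, G m • ∏ j, z j ^ m j

end laurent

section terms

variable {k κ K : Type u} [Field k] [Field κ] [Algebra k κ] [Field K] [Algebra k K]
  {T : Type}

/-- The weight of the `p ^ e t`-th power of the variable `t` (and `0` for the constant term
`none`), for the weights `l` of the variables. -/
def wt (p : ℕ) (e : T → ℕ) (l : T → ℤ) : Option T → ℤ
  | none => 0
  | some t => (p : ℤ) ^ e t * l t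

/-- The level of a term; the constant term has level `⊤`. -/
def lev (e : T → ℕ) : Option T → ℕ∞
  | none => ⊤
  | some t => (e t : ℕ∞)

/-- All terms of `c` have level at least `f`. -/
def LevelGe (e : T → ℕ) (f : ℕ) (c : Option T → k) : Prop := ∀ t, c (some t) ≠ 0 → f ≤ e t

/-- `o` is a term of `c` of minimal weight. -/
def IsMin (p : ℕ) (e : T → ℕ) (l : T → ℤ) (c : Option T → k) (o : Option T) : Prop :=
  c o ≠ 0 ∧ ∀ o', c o' ≠ 0 → wt p e l o ≤ wt p e l o'

/-- The `p ^ f`-th root of an element of the perfect field `k`. -/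
noncomputable def rt (p : ℕ) [Fact p.Prime] [CharP k p] [PerfectRing k p] (f : ℕ) (a : k) : k :=
  (iterateFrobeniusEquiv k p f).symm a

/-- The `p ^ f`-th root of the term `z t ^ (p ^ e t)`, resp. of the constant term `1`. -/
def mv (p : ℕ) (e : T → ℕ) (f : ℕ) (z : T → κ) : Option T → κ
  | none => 1
  | some t => z t ^ p ^ (e t - f)

/-- The exponents of these roots. -/
noncomputable def ex (p : ℕ) (e : T → ℕ) (f : ℕ) : Option T → (T → ℤ) :=
  fun o j => by
    classical
    exact match o with
      | none => 0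
      | some t => if j = t then (p : ℤ) ^ (e t - f) else 0

/-- The term `z t ^ (p ^ e t)`, resp. `1`. -/
def pw (p : ℕ) (e : T → ℕ) (z : T → K) : Option T → K
  | none => 1
  | some t => z t ^ p ^ e t

variable [Fintype T]

/-- The Laurent polynomial `∑ o, (c o) ^ (1 / p ^ f) * z o ^ (p ^ (e o - f))`, the `p ^ f`-th root
of `∑ o, c o * z o ^ (p ^ e o)`. -/
noncomputable def LP (p : ℕ) [Fact p.Prime] [CharP k p] [PerfectRing k p] (e : T → ℕ) (f : ℕ)
    (c : Option T → k) : (T → ℤ) →₀ k :=
  ∑ o, Finsupp.single (ex p e f o) (rt p f (c o))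

open Classical in
/-- The value of the initial form of `LP p e f c`. -/
noncomputable def vL (p : ℕ) [Fact p.Prime] [CharP k p] [PerfectRing k p] (e : T → ℕ) (f : ℕ)
    (c : Option T → k) (l : T → ℤ) (z : T → κ) : κ :=
  ∑ o, if IsMin p e l c o then algebraMap k κ (rt p f (c o)) * mv p e f z o else 0

open Classical in
/-- The logarithmic gradient of the initial form of `LP p e f c`: only the terms of level
exactly `f` contribute. -/
noncomputable def gL (p : ℕ) [Fact p.Prime] [CharP k p] [PerfectRing k p] (e : T → ℕ) (f : ℕ)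
    (c : Option T → k) (l : T → ℤ) (z : T → κ) : T → κ :=
  fun t => if IsMin p e l c (some t) ∧ e t = f then
    algebraMap k κ (rt p f (c (some t))) * z t else 0

open Classical in
/-- The part of weight `w` and level `f` of the gradient. -/
noncomputable def gW (p : ℕ) [Fact p.Prime] [CharP k p] [PerfectRing k p] (e : T → ℕ) (f : ℕ)
    (w : ℤ) (c : Option T → k) (l : T → ℤ) (z : T → κ) : T → κ :=
  fun t => if wt p e l (some t) = w ∧ e t = f then
    algebraMap k κ (rt p f (c (some t))) * z t else 0

omit [Fintype T] in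
/-- The part of `c` of level `< f`. -/
def low (e : T → ℕ) (f : ℕ) (c : Option T → k) : Option T → k :=
  fun o => match o with
    | none => 0
    | some t => if e t < f then c (some t) else 0

omit [Fintype T] in
/-- The system `R` of linear relations is saturated: the part of level `< f` of a relation `c` can
be replaced (modulo `R`) by a combination `a` of terms `o` of level at least `f` each of which is, by
a relation `r ∈ R`, a linear combination of the terms of level `< f` of `c`. -/
def Sat (e : T → ℕ) (R : Submodule k (Option T → k)) : Prop :=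
  ∀ (f : ℕ), ∀ c ∈ R, ∃ a : Option T → k,
    (∀ o, a o ≠ 0 → (∀ t, o = some t → f ≤ e t) ∧ ∃ r ∈ R, r o ≠ 0 ∧
      ∀ o', r o' ≠ 0 → o' = o ∨ ∃ t, o' = some t ∧ e t < f ∧ c (some t) ≠ 0) ∧
    (fun o => low e f c o - a o) ∈ R

omit [Fintype T] in
/-- The family of relations `cx i`, `cx i` of level at least `fx i`, generates the relations of level
at least `f` with support in `W`, for all `W`, for `f = 0` and for the levels `f` of the
variables. -/
def Spanning (e : T → ℕ) (R : Submodule k (Option T → k)) {Ix : Type} (fx : Ix → ℕ)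
    (cx : Ix → Option T → k) : Prop :=
  (∀ i, cx i ∈ R ∧ LevelGe e (fx i) (cx i)) ∧
  ∀ (f : ℕ), (f = 0 ∨ ∃ t, e t = f) → ∀ (W : Set (Option T)), ∀ c ∈ R, LevelGe e f c →
    (∀ o, c o ≠ 0 → o ∈ W) →
    c ∈ Submodule.span k {c' | ∃ i, fx i = f ∧ cx i = c' ∧ ∀ o, c' o ≠ 0 → o ∈ W}

/-- The linear relations between the terms `z t ^ (p ^ e t)` and `1`. -/
noncomputable def Rel (k : Type u) [Field k] {K : Type u} [Field K] [Algebra k K] (p : ℕ)
    (e : T → ℕ) (z : T → K) : Submodule k (Option T → k) :=
  LinearMap.ker (Fintype.linearCombination k (pw p e z))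

end terms

/-- Pivots of a subspace. -/
def S_PIV : Prop :=
  ∀ (k : Type u) [Field k] (ι : Type) [Fintype ι] (Λ : Type) [LinearOrder Λ] (key : ι → Λ),
    Function.Injective key → ∀ R : Submodule k (ι → k),
    ∃ P : Finset ι, Module.finrank k R ≤ P.card ∧
      ∀ o ∈ P, ∃ c ∈ R, c o ≠ 0 ∧ ∀ o', key o' < key o → c o' = 0

/-- Independence of a family in echelon form. -/
def S_ECH : Prop :=
  ∀ (κ : Type u) [Field κ] (ι P : Type) [Fintype P] (Λ : Type) [LinearOrder Λ] (key : P → Λ)
    (σ : P → ι) (v : P → ι → κ), Function.Injective key → (∀ q, v q (σ q) ≠ 0) →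
    (∀ q q', key q' < key q → v q (σ q') = 0) → LinearIndependent κ v

/-- The initial forms of the Laurent polynomials `LP`. -/
def S_FORM : Prop :=
  ∀ (p : ℕ) [Fact p.Prime] (k κ : Type u) [Field k] [CharP k p] [PerfectRing k p] [Field κ]
    [Algebra k κ] (T : Type) [Fintype T] (e : T → ℕ) (f : ℕ) (c : Option T → k),
    LevelGe e f c → ∀ (l : T → ℤ) (z : T → κ),
    vl (LP p e f c) l z = vL p e f c l z ∧
    gv (LP p e f c) (Function.Embedding.refl T) l z = gL p e f c l z ∧
    lv (LP p e f c) z = ∑ o, algebraMap k κ (rt p f (c o)) * mv p e f z o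

/-- Existence of finite spanning families. -/
def S_FAM : Prop :=
  ∀ (k : Type u) [Field k] (T : Type) [Fintype T] (e : T → ℕ) (R : Submodule k (Option T → k)),
    ∃ (Ix : Type) (_ : Fintype Ix) (fx : Ix → ℕ) (cx : Ix → Option T → k), Spanning e R fx cx

/-- Lifting of the leading terms of a relation to a relation of the same level. -/
def S_LIFT : Prop :=
  ∀ (p : ℕ) [Fact p.Prime] (k κ : Type u) [Field k] [CharP k p] [PerfectRing k p] [Field κ]
    [Algebra k κ] (T : Type) [Fintype T] (e : T → ℕ) (R : Submodule k (Option T → k))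
    (Ix : Type) (fx : Ix → ℕ) (cx : Ix → Option T → k) (l : T → ℤ) (z : T → κ),
    Sat e R → Spanning e R fx cx → (∀ t, z t ≠ 0) →
    (∀ i, vL p e (fx i) (cx i) l z = 0) →
    ∀ c ∈ R, ∀ o, c o ≠ 0 →
      (∀ o', c o' ≠ 0 → wt p e l o < wt p e l o' ∨
        (wt p e l o = wt p e l o' ∧ lev e o ≤ lev e o')) →
      ∃ t, o = some t ∧ ∃ c' ∈ R,
        (∀ o', c' o' ≠ 0 → wt p e l o ≤ wt p e l o' ∧ lev e o ≤ lev e o') ∧
        ∀ o', wt p e l o' = wt p e l o → c' o' = c o'

/-- The leading parts of the relations of level at least `f` give gradients. -/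
def S_SPAN : Prop :=
  ∀ (p : ℕ) [Fact p.Prime] (k κ : Type u) [Field k] [CharP k p] [PerfectRing k p] [Field κ]
    [Algebra k κ] (T : Type) [Fintype T] (e : T → ℕ) (R : Submodule k (Option T → k))
    (Ix : Type) (fx : Ix → ℕ) (cx : Ix → Option T → k) (l : T → ℤ) (z : T → κ),
    Spanning e R fx cx → ∀ (f : ℕ), (∃ t, e t = f) → ∀ (w : ℤ), ∀ c ∈ R, LevelGe e f c →
      (∀ o, c o ≠ 0 → w ≤ wt p e l o) →
      gW p e f w c l z ∈ Submodule.span κ (Set.range fun i => gL p e (fx i) (cx i) l z)

/-- The rank of the gradients at a common zero of the initial forms. -/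
def S_RANK : Prop :=
  ∀ (p : ℕ) [Fact p.Prime] (k κ : Type u) [Field k] [CharP k p] [PerfectRing k p] [Field κ]
    [Algebra k κ] (T : Type) [Fintype T] (e : T → ℕ) (R : Submodule k (Option T → k))
    (Ix : Type) (fx : Ix → ℕ) (cx : Ix → Option T → k) (l : T → ℤ) (z : T → κ),
    Sat e R → Spanning e R fx cx → (∀ t, z t ≠ 0) →
    (∀ i, vL p e (fx i) (cx i) l z = 0) →
    Module.finrank k R ≤
      Module.finrank κ (Submodule.span κ (Set.range fun i => gL p e (fx i) (cx i) l z))

/-- Saturation: finitely many roots of linear combinations of the terms are added. -/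
def S_SAT : Prop :=
  ∀ (p : ℕ) [Fact p.Prime] (k K : Type u) [Field k] [CharP k p] [PerfectRing k p] [Field K]
    [Algebra k K] (T : Type) [Fintype T] (e : T → ℕ) (z : T → K), (∀ t, z t ≠ 0) →
    ∃ (I : Type) (_ : Fintype I) (e' : I → ℕ) (z' : I → K), (∀ i, z' i ≠ 0) ∧
      Submodule.span k (Set.range (pw p (Sum.elim e e') (Sum.elim z z'))) =
        Submodule.span k (Set.range (pw p e z)) ∧
      Sat (Sum.elim e e') (Rel k p (Sum.elim e e') (Sum.elim z z'))

/-- The number of independent relations. -/
def S_DIM : Prop :=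
  ∀ (p : ℕ) (k K : Type u) [Field k] [Field K] [Algebra k K] (T : Type) [Fintype T]
    (e : T → ℕ) (z : T → K),
    Module.finrank k (Rel k p e z) +
      Module.finrank k (Submodule.span k (Set.range (pw p e z))) = Fintype.card T + 1

end Pool.Agent.N102.FL
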