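import Pool.Agent.W418.LU2.Off
import Pool.Agent.N102.FL.Stm

/-!
Project FL, second part (helper102): uniformization along a valuation for systems of equations in a
torus with independent gradients at the point given by the valuation.
-/

set_option autoImplicit false

universe u

open Pool.Agent.W418.LU2 IsLocalRing

namespace Pool.Agent.N102.FL

section defs

variable {E K : Type u} [Field E] [Field K] [Algebra E K] {Θ : Type} [Fintype Θ]

open Classical in
/-- The terms of the equations of the system `𝒮` lie in the valuation ring `V`, the equations are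
satisfied by `y`, and the vectors of the logarithmic derivatives of the equations (modulo the
maximal ideal of `V`) are independent: `a` are dual vectors. -/
structure OkJ (𝒮 : Sys E Θ) (y : Θ → K) (V : ValuationSubring K) : Prop where
  hV : ∀ k i, algebraMap E K (𝒮.c k i) * mo y (𝒮.m k i) ∈ V
  sum : ∀ k, ∑ i, algebraMap E K (𝒮.c k i) * mo y (𝒮.m k i) = 0
  der : ∃ a : 𝒮.κ → Θ → K, (∀ k θ, a k θ ∈ V) ∧ ∀ k l,
    V.valuation ((∑ θ, a k θ * ∑ i, (𝒮.m l i θ : K) *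
      (algebraMap E K (𝒮.c l i) * mo y (𝒮.m l i))) - if k = l then 1 else 0) < 1

/-- `z` is a monomial in the `y θ` with a coefficient in `E`. -/
def Mon (E : Type u) {K : Type u} [Field E] [Field K] [Algebra E K] {Θ : Type} [Fintype Θ]
    (y : Θ → K) (z : K) : Prop :=
  ∃ (a : E) (m : Θ → ℤ), a ≠ 0 ∧ z = algebraMap E K a * mo y m

/-- The ideal is not zero and generated by finitely many monomials (and zero). -/
def MonIdeal (E : Type u) {K : Type u} [Field E] [Field K] [Algebra E K] {Θ : Type} [Fintype Θ]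
    (y : Θ → K) {A : Subring K} (I : Ideal A) : Prop :=
  I ≠ ⊥ ∧ ∃ S : Set A, S.Finite ∧ (∀ a ∈ S, (a : K) ≠ 0 → Mon E y a) ∧ I = Ideal.span S

end defs

section laurent

variable {k κ : Type u} [Field k] [Field κ] [Algebra k κ] {J : Type} [Fintype J]

/-- The value of the logarithmic derivative `∑ j, a j * z j * ∂ / ∂ z j` of the initial form of
`G` at the point `z`. -/
noncomputable def der (G : (J → ℤ) →₀ k) (l : J → ℤ) (z a : J → κ) : κ :=
  ∑ m ∈ face G l, algebraMap k κ (G m) * (∑ j, (m j : κ) * a j) * ∏ j, z j ^ m j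

end laurent

/-- Integral weights with the same order on finitely many monomials. -/
def S_WT : Prop :=
  ∀ (K : Type u) [Field K] (V : ValuationSubring K) (J : Type) [Fintype J] (y : J → K),
    (∀ j, y j ≠ 0) → ∀ (S : Finset (J → ℤ)), ∃ l : J → ℤ, ∀ m ∈ S, ∀ m' ∈ S,
      (∑ j, l j * m j ≤ ∑ j, l j * m' j ↔
        V.valuation (∏ j, y j ^ m' j) ≤ V.valuation (∏ j, y j ^ m j))

/-- The point of the torus over the residue field. -/
def S_PT : Prop :=
  ∀ (K : Type u) [Field K] (V : ValuationSubring K) (J : Type) [Fintype J] (y : J → K),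
    (∀ j, y j ≠ 0) → ∃ z : J → ResidueField V, (∀ j, z j ≠ 0) ∧
      ∀ (m : J → ℤ) (hm : ∏ j, y j ^ m j ∈ V), V.valuation (∏ j, y j ^ m j) = 1 →
        residue V ⟨∏ j, y j ^ m j, hm⟩ = ∏ j, z j ^ m j

/-- The system at a valuation. -/
def S_SYS : Prop :=
  ∀ (k E K : Type u) [Field k] [Field E] [Field K] [Algebra k E] [Algebra k K] [Algebra E K]
    [IsScalarTower k E K] (V : ValuationSubring K), (∀ a : k, algebraMap k K a ∈ V) →
    ∀ (H Θ : Type) [Fintype H] [Fintype Θ] (v : H → E) (y : Θ → K), (∀ b, v b ≠ 0) →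
    (∀ θ, y θ ≠ 0) →
    ∀ (σ : Type) [Finite σ] (G : σ → (H ⊕ Θ → ℤ) →₀ k),
    (∀ s, lv (G s) (Sum.elim (fun b => algebraMap E K (v b)) y) = 0) →
    ∀ c : ℕ, (∀ (κ : Type u) [Field κ] [Algebra k κ] (l : H ⊕ Θ → ℤ) (z : H ⊕ Θ → κ),
      (∀ j, z j ≠ 0) → (∀ s, vl (G s) l z = 0) →
      ∃ (t : Fin c → σ) (a : Fin c → H ⊕ Θ → κ), (∀ i b, a i (Sum.inl b) = 0) ∧
        ∀ i j, der (G (t j)) l z (a i) = if i = j then 1 else 0) →
    ∃ 𝒮 : Sys E Θ, Fintype.card 𝒮.κ = c ∧ OkJ 𝒮 y V ∧ ∀ k i, 𝒮.c k i ≠ 0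

/-- The main construction (like `main_cut` of `Pool.Agent.W418.LU2.Main`). -/
def S_CUT : Prop :=
  ∀ (E K : Type u) [Field E] [Field K] [Algebra E K] (Θ : Type) [Fintype Θ] (y : Θ → K),
    (∀ θ, y θ ≠ 0) → ∀ (V : ValuationSubring K) (C : Subring E) (ι₀ : Type) [Fintype ι₀]
    (x₀ : ι₀ → E),
    RegP (V.comap (algebraMap E K)).toSubring (lo (V.comap (algebraMap E K)).toSubring C) x₀ →
    C ≤ (V.comap (algebraMap E K)).toSubring → (∀ a : E, ∃ b ∈ C, b ≠ 0 ∧ a * b ∈ C) →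
    ∀ (𝒮 : Sys E Θ), OkJ 𝒮 y V →
    (∀ k i, PMon (lo (V.comap (algebraMap E K)).toSubring C) x₀ (𝒮.c k i)) →
    (∀ z : K, ∃ a b : MvPolynomial Θ E, ph (E := E) y b ≠ 0 ∧
      z * ph (E := E) y b = ph (E := E) y a) →
    (Algebra.trdeg E K + (Fintype.card 𝒮.κ : Cardinal.{u}) = Fintype.card Θ) →
    ∀ (G : Set (E × (Θ → ℤ))), G.Finite →
    (∀ g ∈ G, PMon (lo (V.comap (algebraMap E K)).toSubring C) x₀ g.1) →
    ∃ (T : Set K) (ι : Type) (_ : Fintype ι) (x : ι → K), T.Finite ∧ (∀ t ∈ T, t ∈ V) ∧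
      (∀ t ∈ T, ∃ γ m, t = algebraMap E K (mo x₀ γ) * mo y m) ∧
      RegP V.toSubring (lo V.toSubring (Subring.closure (C.map (algebraMap E K) ∪ T))) x ∧
      (∀ e, PMon (lo (V.comap (algebraMap E K)).toSubring C) x₀ e →
        PMon (lo V.toSubring (Subring.closure (C.map (algebraMap E K) ∪ T))) x
          (algebraMap E K e)) ∧
      (∀ θ, PMon (lo V.toSubring (Subring.closure (C.map (algebraMap E K) ∪ T))) x (y θ)) ∧
      ∀ g ∈ G, algebraMap E K g.1 * mo y g.2 ∈ V → algebraMap E K g.1 * mo y g.2 ∈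
        lo V.toSubring (Subring.closure (C.map (algebraMap E K) ∪ T))

/-- The ascent of log uniformization (like `ascent` of `Pool.Agent.W418.LU2.Final`). -/
def S_ASC : Prop :=
  ∀ (E K : Type u) [Field E] [Field K] [Algebra E K] (V : ValuationSubring K) (R : Subring E)
    [IsNoetherianRing R], (∀ z : E, ∃ a ∈ R, ∃ b ∈ R, b ≠ 0 ∧ z = a * b⁻¹) →
    (∀ a ∈ R, algebraMap E K a ∈ V) → LogUnif (V.comap (algebraMap E K)) R →
    ∀ (Θ : Type) [Fintype Θ] (y : Θ → K), (∀ θ, y θ ≠ 0) →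
    (∀ z : K, ∃ a b : MvPolynomial Θ E, ph (E := E) y b ≠ 0 ∧
      z * ph (E := E) y b = ph (E := E) y a) →
    ∀ (𝒮 : Sys E Θ), OkJ 𝒮 y V → (∀ k i, 𝒮.c k i ≠ 0) →
    (Algebra.trdeg E K + (Fintype.card 𝒮.κ : Cardinal.{u}) = Fintype.card Θ) →
    ∀ (A : Subring K) (Gen : Set K), Gen.Finite → (∀ z ∈ Gen, Mon E y z) →
    A = Subring.closure ((R.map (algebraMap E K) : Set K) ∪ Gen) → A ≤ V.toSubring →
    (∀ θ, ∃ b ∈ R, b ≠ 0 ∧ algebraMap E K b * y θ ∈ A) →
    ∀ (D I₀ : Ideal A), MonIdeal E y D → MonIdeal E y I₀ →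
    ∃ I₁ : Ideal A, MonIdeal E y I₁ ∧ LogDesing V A D (I₀ * I₁)

/-- Local uniformization of local rings (like `off` of `Pool.Agent.W418.LU2.Off`). -/
def S_OFF : Prop :=
  ∀ (E K : Type u) [Field E] [Field K] [Algebra E K] (R₀ : Subring E), HasLU R₀ →
    ∀ (Θ : Type) [Fintype Θ] (y : Θ → K), (∀ θ, y θ ≠ 0) →
    (∀ z : K, ∃ a b : MvPolynomial Θ E, ph (E := E) y b ≠ 0 ∧
      z * ph (E := E) y b = ph (E := E) y a) →
    ∀ (A : Subring K) (G : Set K), G.Finite → (∀ z ∈ G, Mon E y z) →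
    A = Subring.closure ((R₀.map (algebraMap E K) : Set K) ∪ G) →
    ∀ (q : Ideal A) [q.IsPrime] (R : Type u) [CommRing R] [Algebra A R]
    [IsLocalization.AtPrime R q] [Algebra R K] [IsScalarTower A R K] (V : ValuationSubring K),
    (∀ r : R, algebraMap R K r ∈ V) →
    (∀ r : R, r ∈ nonunits R ↔ V.valuation (algebraMap R K r) < 1) →
    ∀ (𝒮 : Sys E Θ), OkJ 𝒮 y V → (∀ k i, 𝒮.c k i ≠ 0) →
    (Algebra.trdeg E K + (Fintype.card 𝒮.κ : Cardinal.{u}) = Fintype.card Θ) →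
    ∃ B : Subalgebra R K, B.FG ∧ (∀ b : B, (b : K) ∈ V) ∧
      ∃ P : Ideal B, ∃ (_ : P.IsPrime),
        (∀ b : B, b ∈ P ↔ V.valuation (b : K) < 1) ∧
        IsRegularLocalRing (Localization.AtPrime P)

/-- The saturation, with the levels of the roots. -/
def S_SAT2 : Prop :=
  ∀ (p : ℕ) [Fact p.Prime] (k K : Type u) [Field k] [CharP k p] [PerfectRing k p] [Field K]
    [Algebra k K] (T : Type) [Fintype T] (e : T → ℕ) (z : T → K), (∀ t, z t ≠ 0) →
    ∃ (I : Type) (_ : Fintype I) (e' : I → ℕ) (z' : I → K), (∀ i, z' i ≠ 0) ∧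
      (∀ i, z' i ^ p ^ e' i ∈ Submodule.span k
        (insert 1 {w | ∃ t, e' i ≤ e t ∧ z t ^ p ^ e t = w})) ∧
      Submodule.span k (Set.range (pw p (Sum.elim e e') (Sum.elim z z'))) =
        Submodule.span k (Set.range (pw p e z)) ∧
      Sat (Sum.elim e e') (Rel k p (Sum.elim e e') (Sum.elim z z'))

end Pool.Agent.N102.FL
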