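import Pool.Agent.H176.DT.Stm
import Pool.Agent.N102.FL.LStm

/-!
Project FL, third part (helper102): stages.
-/

set_option autoImplicit false

universe u

open Pool.Agent.W418.LU2 IsLocalRing

namespace Pool.Agent.N102.FL

/-- Stages over `A` on which given monomials become monomials in the coordinates. -/
def S_STG : Prop :=
  ∀ (E K : Type u) [Field E] [Field K] [Algebra E K] (V : ValuationSubring K) (R : Subring E)
    [IsNoetherianRing R], (∀ z : E, ∃ a ∈ R, ∃ b ∈ R, b ≠ 0 ∧ z = a * b⁻¹) →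
    (∀ a ∈ R, algebraMap E K a ∈ V) → LogUnif (V.comap (algebraMap E K)) R →
    ∀ (Θ : Type) [Fintype Θ] (y : Θ → K), (∀ θ, y θ ≠ 0) →
    (∀ z : K, ∃ a b : MvPolynomial Θ E, ph (E := E) y b ≠ 0 ∧
      z * ph (E := E) y b = ph (E := E) y a) →
    ∀ (𝒮 : Sys E Θ), OkJ 𝒮 y V → (∀ k i, 𝒮.c k i ≠ 0) →
    (Algebra.trdeg E K + (Fintype.card 𝒮.κ : Cardinal.{u}) = Fintype.card Θ) →
    ∀ (A : Subring K) (Gen : Set K), Gen.Finite → (∀ z ∈ Gen, Mon E y z) →
    A = Subring.closure ((R.map (algebraMap E K) : Set K) ∪ Gen) → A ≤ V.toSubring →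
    (∀ θ, ∃ b ∈ A, Mon E y b ∧ b * y θ ∈ A) →
    ∀ (M : Set K), M.Finite → (∀ g ∈ M, Mon E y g) →
    ∃ (T : Set K) (n : ℕ) (X : Fin n → K), Pool.Agent.H176.DT.St V A T X ∧
      ∀ g ∈ M, PMon (Pool.Agent.H176.DT.PP V A T) X g

end Pool.Agent.N102.FL
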