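import Pool.Agent.H176.DT.G3
import Pool.Agent.N102.FL.LFin
import Pool.Agent.N102.FL.LStm2

/-!
Project FL, third part (helper102): stages over charts of projective schemes.
-/

set_option autoImplicit false
set_option linter.unusedVariables false
set_option linter.unusedSectionVars false

universe u

open Pool.Agent.TH214.SD Pool.Agent.W418.LU2 Pool.Agent.H176.DT

namespace Pool.Agent.N102.FL

section mult

variable {E K : Type u} [Field E] [Field K] [Algebra E K] {Θ : Type} [Fintype Θ] {y : Θ → K}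

/-- The elements of `K` with a multiple in `A` with a factor in `A` which is a monomial. -/
def mulSub (E : Type u) {K : Type u} [Field E] [Field K] [Algebra E K] {Θ : Type} [Fintype Θ]
    {y : Θ → K} (hy : ∀ θ, y θ ≠ 0) (A : Subring K) : Subring K where
  carrier := {w | ∃ b ∈ A, Mon E y b ∧ b * w ∈ A}
  mul_mem' := by
    rintro u w ⟨b, hb, hb0, hu⟩ ⟨b', hb', hb0', hw⟩
    refine ⟨b * b', A.mul_mem hb hb', hb0.mul hy hb0', ?_⟩
    have h : b * b' * (u * w) = (b * u) * (b' * w) := by ring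
    rw [h]
    exact A.mul_mem hu hw
  one_mem' := ⟨1, A.one_mem, Mon.one, by
    rw [one_mul]
    exact A.one_mem⟩
  add_mem' := by
    rintro u w ⟨b, hb, hb0, hu⟩ ⟨b', hb', hb0', hw⟩
    refine ⟨b * b', A.mul_mem hb hb', hb0.mul hy hb0', ?_⟩
    have h : b * b' * (u + w) = b' * (b * u) + b * (b' * w) := by ring
    rw [h]
    exact A.add_mem (A.mul_mem hb' hu) (A.mul_mem hb hw)
  zero_mem' := ⟨1, A.one_mem, Mon.one, by
    rw [mul_zero]
    exact A.zero_mem⟩
  neg_mem' := by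
    rintro u ⟨b, hb, hb0, hu⟩
    exact ⟨b, hb, hb0, by
      rw [mul_neg]
      exact A.neg_mem hu⟩

lemma const_mulSub (hy : ∀ θ, y θ ≠ 0) {A : Subring K} {R : Subring E}
    (hfr : ∀ w : E, ∃ a ∈ R, ∃ b ∈ R, b ≠ 0 ∧ w = a * b⁻¹)
    (hRA : ∀ r ∈ R, algebraMap E K r ∈ A) (a : E) : algebraMap E K a ∈ mulSub E hy A := by
  obtain ⟨a', ha', b, hb, hb0, rfl⟩ := hfr a
  refine ⟨algebraMap E K b, hRA b hb, Mon.const hb0, ?_⟩
  rw [← map_mul, mul_comm a', ← mul_assoc, mul_inv_cancel₀ hb0, one_mul]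
  exact hRA a' ha'

lemma ph_mem {S : Subring K} (hE : ∀ a : E, algebraMap E K a ∈ S) (hyS : ∀ θ, y θ ∈ S)
    (P : MvPolynomial Θ E) : ph (E := E) y P ∈ S := by
  induction P using MvPolynomial.induction_on with
  | C a =>
    have h : ph (E := E) y (MvPolynomial.C a) = algebraMap E K a := MvPolynomial.aeval_C y a
    rw [h]
    exact hE a
  | add P Q hP hQ =>
    rw [map_add]
    exact S.add_mem hP hQ
  | mul_X P θ hP =>
    rw [map_mul]
    have h : ph (E := E) y (MvPolynomial.X θ) = y θ := MvPolynomial.aeval_X y θ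
    rw [h]
    exact S.mul_mem hP (hyS θ)

end mult

section main

variable {p : ℕ} [Fact p.Prime] {k E K : Type u} [Field k] [PerfectField k] [CharP k p] [Field E]
  [Field K] [Algebra k E] [Algebra k K] [Algebra E K] [IsScalarTower k E K] {h s n q c : ℕ}
  {v : Fin h → E} {e : Fin s → ℕ} {z : Fin s → K} {x : Fin n → K}
  {G : Fin q → (Fin (h + s) ⊕ Fin n → ℤ) →₀ k}

lemma form_mulSub {Θ : Type} [Fintype Θ] {y : Θ → K} (hy : ∀ θ, y θ ≠ 0) {A : Subring K}
    (hE : ∀ a : E, algebraMap E K a ∈ mulSub E hy A) (hz : ∀ t, z t ∈ mulSub E hy A) {g : K}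
    (hg : IsLinearForm k p e z g) : g ∈ mulSub E hy A := by
  obtain ⟨f, hf⟩ := hg
  induction hf using Submodule.span_induction with
  | mem w hw =>
    rcases hw with rfl | ⟨t, -, rfl⟩
    · exact Subring.one_mem _
    · exact Subring.pow_mem _ (hz t) _
  | zero => exact Subring.zero_mem _
  | add u w _ _ hu hw => exact Subring.add_mem _ hu hw
  | smul a w _ hw =>
    rw [Algebra.smul_def, IsScalarTower.algebraMap_apply k E K]
    exact Subring.mul_mem _ (hE _) hw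

/-- Stages over charts. -/
theorem stage_core (hsys : S_SYS.{u}) (hstg : S_STG.{u})
    (hB : IsLeveledSystemOver (E := E) p c v e z x G) (V : ValuationSubring K)
    (hkV : ∀ a : k, algebraMap k K a ∈ V) (O : Subring K) (hO : ∀ a ∈ O, a ∈ V)
    (R : Subring E) [IsNoetherianRing R]
    (hfr : ∀ w : E, ∃ a ∈ R, ∃ b ∈ R, b ≠ 0 ∧ w = a * b⁻¹)
    (hLU : LogUnif (V.comap (algebraMap E K)) R) {W : Set K} (hW : W.Finite) {w : K}
    (hw : w ∈ W) (hw0 : w ≠ 0) (hwV : ∀ g ∈ W, g / w ∈ V)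
    (hWm : ∀ g ∈ W, g ≠ 0 → ∃ u ∈ monomials k E p e z x, (u : K) = g)
    (hOR : O ≤ R.map (algebraMap E K)) (hRA : R.map (algebraMap E K) ≤ ch O W w)
    (hzA : ∀ t, ∃ b ∈ ch O W w, (∃ u ∈ monomials k E p e z x, (u : K) = b) ∧
      b * z t ∈ ch O W w)
    (hxA : ∀ j, ∃ b ∈ ch O W w, (∃ u ∈ monomials k E p e z x, (u : K) = b) ∧
      b * x j ∈ ch O W w) (π : K) (hπ : π ∈ O) (hπ0 : π ≠ 0) :
    Mod V (ch O W w) ∧ ∃ (T : Set K) (n' : ℕ) (X : Fin n' → K), St V (ch O W w) T X ∧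
      PMon (PP V (ch O W w) T) X π := by
  classical
  set A := ch O W w with hA
  have hAV : A ≤ V.toSubring := by
    rw [hA]
    unfold ch
    rw [Subring.closure_le]
    rintro g (hg | ⟨g', hg', rfl⟩)
    · exact hO g hg
    · exact hwV g' hg'
  have hRA' : ∀ r ∈ R, algebraMap E K r ∈ A := fun r hr => hRA ⟨r, hr, rfl⟩
  choose bz hbz1 hbz2 hbz3 using hzA
  choose bx hbx1 hbx2 hbx3 using hxA
  obtain ⟨b, g, hg0, hg, hcov⟩ := exists_cov (k := k) (E := E) (p := p) (e := e) (z := z)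
    (x := x) (S := {g | g ∈ W ∧ g ≠ 0} ∪ (Set.range bz ∪ Set.range bx))
    ((hW.subset fun g hg => hg.1).union ((Set.finite_range bz).union (Set.finite_range bx)))
    (by
      rintro g (hg | ⟨t, rfl⟩ | ⟨j, rfl⟩)
      · exact hWm g hg.1 hg.2
      · exact hbz2 t
      · exact hbx2 j)
  obtain ⟨Θ, _, y, 𝒮, hy, hgen, hok, hc0, htr, hyf, hyx, hyg⟩ :=
    exists_system hsys hB V hkV b g hg0 hg
  have hcov' := hcov Θ y hy hyx hyg
  have hEm : ∀ a : E, algebraMap E K a ∈ mulSub E hy A := const_mulSub hy hfr hRA'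
  have hzm : ∀ t, z t ∈ mulSub E hy A := fun t =>
    ⟨bz t, hbz1 t, hcov' _ (Or.inr (Or.inl ⟨t, rfl⟩)), hbz3 t⟩
  have hxm : ∀ j, x j ∈ mulSub E hy A := fun j =>
    ⟨bx j, hbx1 j, hcov' _ (Or.inr (Or.inr ⟨j, rfl⟩)), hbx3 j⟩
  have hym : ∀ θ, y θ ∈ mulSub E hy A := by
    intro θ
    rcases hyf θ with ⟨j, hj⟩ | hl
    · rw [hj]
      exact hxm j
    · exact form_mulSub hy hEm hzm hl
  have hMod : Mod V A := by
    refine ⟨hAV, fun w' => ?_⟩
    obtain ⟨P, Q, hQ0, hQ⟩ := hgen w'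
    obtain ⟨β, hβ, hβm, hβP⟩ := ph_mem hEm hym P
    obtain ⟨γ, hγ, hγm, hγQ⟩ := ph_mem hEm hym Q
    have hβ0 : β ≠ 0 := by
      obtain ⟨a, m, ha, rfl⟩ := hβm
      exact mul_ne_zero ((map_ne_zero (algebraMap E K)).2 ha) (mo_ne_zero hy m)
    have hγ0 : γ ≠ 0 := by
      obtain ⟨a, m, ha, rfl⟩ := hγm
      exact mul_ne_zero ((map_ne_zero (algebraMap E K)).2 ha) (mo_ne_zero hy m)
    refine ⟨γ * (β * ph (E := E) y P), A.mul_mem hγ hβP, β * (γ * ph (E := E) y Q),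
      A.mul_mem hβ hγQ, mul_ne_zero hβ0 (mul_ne_zero hγ0 hQ0), ?_⟩
    rw [← hQ]
    field_simp
  refine ⟨hMod, ?_⟩
  have hAeq : A = Subring.closure ((R.map (algebraMap E K) : Set K) ∪
      ((fun g => g / w) '' {g | g ∈ W ∧ g ≠ 0})) := by
    apply le_antisymm
    · rw [hA]
      unfold ch
      rw [Subring.closure_le]
      rintro g (hg | ⟨g', hg', rfl⟩)
      · exact Subring.subset_closure (Or.inl (hOR hg))
      · by_cases h0 : g' = 0
        · rw [h0, zero_div]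
          exact Subring.zero_mem _
        · exact Subring.subset_closure (Or.inr ⟨g', ⟨hg', h0⟩, rfl⟩)
    · rw [Subring.closure_le]
      rintro g (hg | ⟨g', ⟨hg', -⟩, rfl⟩)
      · exact hRA hg
      · rw [hA]
        exact Subring.subset_closure (Or.inr ⟨g', hg', rfl⟩)
  have hwm : Mon E y w := hcov' w (Or.inl ⟨hw, hw0⟩)
  obtain ⟨π', hπ'R, hπ'⟩ := hOR hπ
  have hπ'0 : π' ≠ 0 := by
    rintro rfl
    rw [map_zero] at hπ'
    exact hπ0 hπ'.symm
  obtain ⟨T, n', X, h1, h2⟩ := hstg E K V R hfr (fun r hr => hAV (hRA' r hr)) hLU Θ y hy hgen 𝒮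
    hok hc0 htr A ((fun g => g / w) '' {g | g ∈ W ∧ g ≠ 0})
    ((hW.subset fun g hg => hg.1).image _) (by
      rintro _ ⟨g', hg', rfl⟩
      change Mon E y (g' / w)
      rw [div_eq_mul_inv]
      exact (hcov' g' (Or.inl hg')).mul hy hwm.inv) hAeq hAV hym {π} (Set.finite_singleton π) (by
      intro g' hg'
      rw [Set.mem_singleton_iff.1 hg', ← hπ']
      exact Mon.const hπ'0)
  exact ⟨T, n', X, h1, h2 π rfl⟩

end main

end Pool.Agent.N102.FL
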