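import Pool.Agent.N102.FL.LStm2
import Pool.Agent.N498.FL.Asc

/-!
# FL3/STG: stages over monomial models (helper853, adapted by helper102)

The proof follows `t_asc` of `Pool.Agent.N498.FL.Asc` and `exists_stage` of `Pool.Agent.N98.SS.Stage`.
-/

set_option autoImplicit false
set_option linter.unusedVariables false
set_option linter.unusedSectionVars false

universe u

namespace Pool.Agent.N102.FL.STG

open IsLocalRing Pool.Agent.W418.LU2 Pool.Agent.N102.FL Pool.Agent.N498.FL Pool.Agent.H176.DT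

section aux

variable {F : Type u} [Field F]

/-- The elements with monomial denominators. -/
lemma den_closure {A L : Subring F} {ι : Type} [Fintype ι] {X : ι → F} (hX : ∀ i, X i ≠ 0)
    {T : Set F} (hT : ∀ t ∈ T, ∃ β ∈ A, PMon L X β ∧ β * t ∈ A) :
    ∀ z ∈ Subring.closure ((A : Set F) ∪ T), ∃ β ∈ A, PMon L X β ∧ β * z ∈ A := by
  intro z hz
  induction hz using Subring.closure_induction with
  | mem z hz =>
    rcases hz with hz | hz
    · exact ⟨1, A.one_mem, PMon.one, by rw [one_mul]; exact hz⟩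
    · exact hT z hz
  | zero => exact ⟨1, A.one_mem, PMon.one, by rw [mul_zero]; exact A.zero_mem⟩
  | one => exact ⟨1, A.one_mem, PMon.one, by rw [mul_one]; exact A.one_mem⟩
  | add x y _ _ hx hy =>
    obtain ⟨β, hβ, hβm, hβx⟩ := hx
    obtain ⟨β', hβ', hβm', hβy⟩ := hy
    refine ⟨β * β', A.mul_mem hβ hβ', hβm.mul hX hβm', ?_⟩
    have e1 : β * β' * (x + y) = β * x * β' + β' * y * β := by ring
    rw [e1]
    exact A.add_mem (A.mul_mem hβx hβ') (A.mul_mem hβy hβ)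
  | neg x _ hx =>
    obtain ⟨β, hβ, hβm, hβx⟩ := hx
    exact ⟨β, hβ, hβm, by rw [mul_neg]; exact A.neg_mem hβx⟩
  | mul x y _ _ hx hy =>
    obtain ⟨β, hβ, hβm, hβx⟩ := hx
    obtain ⟨β', hβ', hβm', hβy⟩ := hy
    refine ⟨β * β', A.mul_mem hβ hβ', hβm.mul hX hβm', ?_⟩
    have e1 : β * β' * (x * y) = β * x * (β' * y) := by ring
    rw [e1]
    exact A.mul_mem hβx hβy

/-- Common denominators. -/
lemma exists_den {A P : Subring F} {ι : Type} [Fintype ι] {x : ι → F} (hx : ∀ i, x i ≠ 0)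
    {T : Set F} (hT : T.Finite) (h : ∀ t ∈ T, ∃ b ∈ A, PMon P x b ∧ b * t ∈ A) :
    ∃ β ∈ A, PMon P x β ∧ ∀ t ∈ T, β * t ∈ A := by
  induction T, hT using Set.Finite.induction_on with
  | empty => exact ⟨1, A.one_mem, PMon.one, fun t ht => ht.elim⟩
  | @insert a T ha hT ih =>
    obtain ⟨β, hβ, hβm, hβT⟩ := ih fun t ht => h t (Set.mem_insert_of_mem _ ht)
    obtain ⟨b, hb, hbm, hba⟩ := h a (Set.mem_insert _ _)
    refine ⟨β * b, A.mul_mem hβ hb, hβm.mul hx hbm, ?_⟩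
    rintro t (rfl | ht)
    · rw [mul_assoc]
      exact A.mul_mem hβ hba
    · rw [mul_comm β, mul_assoc]
      exact A.mul_mem hb (hβT t ht)

lemma pmon_equiv {P : Subring F} {ι κ : Type} [Fintype ι] [Fintype κ]
    {x : ι → F} (e : κ ≃ ι) {z : F} (hz : PMon P x z) : PMon P (fun k => x (e k)) z := by
  obtain ⟨u, u0, u1, u2, δ, rfl⟩ := hz
  refine ⟨u, u0, u1, u2, fun k => δ (e k), ?_⟩
  congr 1
  unfold mo
  exact (Equiv.prod_comp e fun i => x i ^ δ i).symm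

lemma pmon_unit {P : Subring F} {ι : Type} [Fintype ι] {x : ι → F} {u : F} (u0 : u ≠ 0)
    (u1 : u ∈ P) (u2 : u⁻¹ ∈ P) : PMon P x u :=
  ⟨u, u0, u1, u2, 0, by rw [mo_zero, mul_one]⟩

theorem indN_equiv {B : Type u} [CommRing B] [IsLocalRing B] {ι κ : Type} [Fintype ι] [Fintype κ]
    {z : ι → B} (hz : IndN z) (f : κ ≃ ι) : IndN (fun k => z (f k)) := by
  intro c hc hs k
  have h := hz (fun i => c (f.symm i)) ?_ ?_ (f k)
  · simpa using h
  · intro i hi
    have h1 := hc (f.symm i)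
    simp only [Equiv.apply_symm_apply] at h1
    exact h1 hi
  · have h : ∑ k, c k * z (f k) = ∑ i, c (f.symm i) * z i := by
      rw [← Equiv.sum_comp f]
      simp
    rw [← h]
    exact hs

theorem regP_equiv {A P : Subring F} {ι κ : Type} [Fintype ι] [Fintype κ] {x : ι → F}
    (h : RegP A P x) (f : κ ≃ ι) : RegP A P (fun k => x (f k)) := by
  have hreg := h.reg
  exact ⟨h.PA, fun k => h.ne _, fun k => h.mem _, h.reg, h.inv, indN_equiv h.ind f⟩

end aux

/-- **STG**: the stages over monomial models. -/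
theorem t_stg (hcut : S_CUT.{u}) : S_STG.{u} := by
  intro E K _ _ _ V R _ hfr hRV hLU Θ _ y hy hyfr 𝒮 hOk hc0 htr A Gen hGenf hGen hA hAV hbθ M
    hMf hM
  classical
  have hRA : ∀ a ∈ R, algebraMap E K a ∈ A := by
    intro a ha
    rw [hA]
    exact Subring.subset_closure (Or.inl ⟨a, ha, rfl⟩)
  have hGenA : ∀ z ∈ Gen, z ∈ A := by
    intro z hz
    rw [hA]
    exact Subring.subset_closure (Or.inr hz)
  -- the monomials
  choose bθ hbR hb0 hbA using hbθ
  let Z : Set K := Gen ∪ M ∪ Set.range bθ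
  have hZf : Z.Finite := (hGenf.union hMf).union (Set.finite_range _)
  have hZm : ∀ z ∈ Z, Mon E y z := by
    rintro z ((hz | hz) | ⟨θ, rfl⟩)
    · exact hGen z hz
    · exact hM z hz
    · exact hb0 θ
  have hZm' : ∀ z ∈ Z, ∃ (a : E) (m : Θ → ℤ), a ≠ 0 ∧ z = algebraMap E K a * mo y m := hZm
  choose! ez mz hez0 hmz using hZm'
  let Hc : Set E := Set.range fun q : (k : 𝒮.κ) × 𝒮.ι k => 𝒮.c q.1 q.2
  have hHcf : Hc.Finite := Set.finite_range _
  have hHc0 : ∀ h ∈ Hc, h ≠ 0 := by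
    rintro _ ⟨q, rfl⟩
    exact hc0 q.1 q.2
  -- the base
  have hRW : R ≤ (V.comap (algebraMap E K)).toSubring := fun a ha => hRV a ha
  obtain ⟨Wb, fb, n0, x₀, hWbf, hfbR, hfb0, hWb, hx₀, hreg₀, hfbm, hHm⟩ :=
    base (V.comap (algebraMap E K)) R hRW hfr hLU (Hc ∪ ez '' Z)
      (hHcf.union (hZf.image _)) (by
        rintro h (hh | ⟨z, hz, rfl⟩)
        · exact hHc0 h hh
        · exact hez0 z hz)
  set C := Subring.closure ((R : Set E) ∪ Wb) with hC
  have hCW : C ≤ (V.comap (algebraMap E K)).toSubring := by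
    rw [hC, Subring.closure_le]
    rintro z (hz | hz)
    · exact hRW hz
    · exact (hWb z hz).1
  have hRC : R ≤ C := fun a ha => Subring.subset_closure (Or.inl ha)
  have hCE : ∀ a : E, ∃ b ∈ C, b ≠ 0 ∧ a * b ∈ C := by
    intro a
    obtain ⟨a', ha', b, hb, hb0, rfl⟩ := hfr a
    refine ⟨b, hRC hb, hb0, ?_⟩
    rw [mul_assoc, inv_mul_cancel₀ hb0, mul_one]
    exact hRC ha'
  -- the construction
  obtain ⟨T, κ, _, x, hTf, hTV, hTm, hreg, hPMalg, hPMy, hGV⟩ :=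
    hcut E K Θ y hy V C (Fin n0) x₀ hreg₀ hCW hCE 𝒮 hOk
      (fun k i => hHm _ (Or.inl ⟨⟨k, i⟩, rfl⟩)) hyfr htr
      ((fun z => (ez z, mz z)) '' Z) (hZf.image _) (by
        rintro _ ⟨z, hz, rfl⟩
        exact hHm _ (Or.inr ⟨z, hz, rfl⟩))
  set B := Subring.closure (C.map (algebraMap E K) ∪ T) with hB
  set P := lo V.toSubring B with hP
  have hBV : B ≤ V.toSubring := by
    rw [hB, Subring.closure_le]
    rintro w (⟨c, hc, rfl⟩ | hw)
    · exact hCW hc
    · exact hTV w hw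
  have hBP : B ≤ P := le_lo _ _
  have hCP : ∀ c ∈ C, algebraMap E K c ∈ P := fun c hc =>
    hBP (Subring.subset_closure (Or.inl ⟨c, hc, rfl⟩))
  have hTP : ∀ t ∈ T, t ∈ P := fun t ht => hBP (Subring.subset_closure (Or.inr ht))
  -- the monomials
  have hZP : ∀ z ∈ Z, z ∈ V → z ∈ P := by
    intro z hz hzV
    have h1 := hGV (ez z, mz z) ⟨z, hz, rfl⟩
    simp only [← hmz z hz] at h1
    exact h1 hzV
  have hZPM : ∀ z ∈ Z, PMon P x z := by
    intro z hz
    rw [hmz z hz]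
    exact (hPMalg _ (hHm _ (Or.inr ⟨z, hz, rfl⟩))).mul hreg.ne (PMon.mo hreg.ne hPMy _)
  have hAP : A ≤ P := by
    rw [hA, Subring.closure_le]
    rintro z (⟨a, ha, rfl⟩ | hz)
    · exact hCP _ (hRC ha)
    · exact hZP z (Or.inl (Or.inl hz)) (hAV (hGenA z hz))
  -- the fractions
  let Qm : Set K := {α | α ∈ A ∧ Mon E y α ∧ PMon P x α}
  have hQmul : ∀ α ∈ Qm, ∀ β ∈ Qm, α * β ∈ Qm := fun α hα β hβ =>
    ⟨A.mul_mem hα.1 hβ.1, mon_mul hα.2.1 hy hβ.2.1, hα.2.2.mul hreg.ne hβ.2.2⟩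
  have hQone : (1 : K) ∈ Qm := ⟨A.one_mem, mon_one, PMon.one⟩
  let Fr : Set K := {z | ∃ α ∈ Qm, ∃ β ∈ Qm, z = α * β⁻¹}
  have hFmul : ∀ z ∈ Fr, ∀ w ∈ Fr, z * w ∈ Fr := by
    rintro _ ⟨α, hα, β, hβ, rfl⟩ _ ⟨α', hα', β', hβ', rfl⟩
    refine ⟨α * α', hQmul _ hα _ hα', β * β', hQmul _ hβ _ hβ', ?_⟩
    rw [mul_inv]
    ring
  have hFinv : ∀ z ∈ Fr, z⁻¹ ∈ Fr := by
    rintro _ ⟨α, hα, β, hβ, rfl⟩
    refine ⟨β, hβ, α, hα, ?_⟩
    rw [mul_inv, inv_inv, mul_comm]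
  have hFone : (1 : K) ∈ Fr := ⟨1, hQone, 1, hQone, by simp⟩
  have hFpow : ∀ z ∈ Fr, ∀ n : ℕ, z ^ n ∈ Fr := by
    intro z hz n
    induction n with
    | zero => rw [pow_zero]; exact hFone
    | succ n ih => rw [pow_succ]; exact hFmul _ ih _ hz
  have hFzpow : ∀ z ∈ Fr, ∀ n : ℤ, z ^ n ∈ Fr := by
    intro z hz n
    rcases Int.eq_nat_or_neg n with ⟨n', rfl | rfl⟩
    · rw [zpow_natCast]; exact hFpow z hz n'
    · rw [zpow_neg, zpow_natCast]; exact hFinv _ (hFpow z hz n')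
  have hFmo : ∀ {κ' : Type} [Fintype κ'] (w : κ' → K), (∀ i, w i ∈ Fr) → ∀ m, mo w m ∈ Fr := by
    intro κ' _ w hw m
    unfold mo
    have h1 : ∀ s : Finset κ', ∏ i ∈ s, w i ^ m i ∈ Fr := by
      intro s
      induction s using Finset.induction_on with
      | empty => rw [Finset.prod_empty]; exact hFone
      | insert i s hi ih =>
        rw [Finset.prod_insert hi]
        exact hFmul _ (hFzpow _ (hw i) _) _ ih
    exact h1 _
  have hFy : ∀ θ, y θ ∈ Fr := by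
    intro θ
    have h1 : Mon E y (bθ θ) := hb0 θ
    have h2 : Mon E y (y θ) := mon_coord θ
    have h3 : PMon P x (bθ θ) := hZPM _ (Or.inr ⟨θ, rfl⟩)
    refine ⟨bθ θ * y θ, ⟨hbA θ, mon_mul h1 hy h2, h3.mul hreg.ne (hPMy θ)⟩,
      bθ θ, ⟨hbR θ, h1, h3⟩, ?_⟩
    rw [mul_comm, ← mul_assoc, inv_mul_cancel₀ (mon_ne h1 hy), one_mul]
  have hfbQ : algebraMap E K fb ∈ Qm := ⟨hRA _ hfbR, mon_alg hfb0, hPMalg _ hfbm⟩
  have hfbpow : ∀ k : ℕ, algebraMap E K (fb ^ k) ∈ Qm := by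
    intro k
    induction k with
    | zero => rw [pow_zero, map_one]; exact hQone
    | succ k ih => rw [pow_succ, map_mul]; exact hQmul _ ih _ hfbQ
  have hCfb : ∀ z ∈ C, ∃ k : ℕ, z * fb ^ k ∈ R := by
    intro z hz
    rw [hC] at hz
    induction hz using Subring.closure_induction with
    | mem z hz =>
      rcases hz with hz | hz
      · exact ⟨0, by rw [pow_zero, mul_one]; exact hz⟩
      · exact ⟨1, by rw [pow_one]; exact (hWb z hz).2⟩
    | zero => exact ⟨0, by rw [zero_mul]; exact R.zero_mem⟩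
    | one => exact ⟨0, by rw [pow_zero, mul_one]; exact R.one_mem⟩
    | add a b _ _ ha hb =>
      obtain ⟨k, hk⟩ := ha
      obtain ⟨k', hk'⟩ := hb
      refine ⟨k + k', ?_⟩
      have h1 : (a + b) * fb ^ (k + k') = a * fb ^ k * fb ^ k' + b * fb ^ k' * fb ^ k := by
        rw [pow_add]; ring
      rw [h1]
      exact R.add_mem (R.mul_mem hk (R.pow_mem hfbR _)) (R.mul_mem hk' (R.pow_mem hfbR _))
    | neg a _ ha =>
      obtain ⟨k, hk⟩ := ha
      exact ⟨k, by rw [neg_mul]; exact R.neg_mem hk⟩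
    | mul a b _ _ ha hb =>
      obtain ⟨k, hk⟩ := ha
      obtain ⟨k', hk'⟩ := hb
      refine ⟨k + k', ?_⟩
      have h1 : a * b * fb ^ (k + k') = a * fb ^ k * (b * fb ^ k') := by
        rw [pow_add]; ring
      rw [h1]
      exact R.mul_mem hk hk'
  have hFx : ∀ i, algebraMap E K (x₀ i) ∈ Fr := by
    intro i
    obtain ⟨k, hk⟩ := hCfb _ (hx₀ i)
    have h1 : PMon P x (algebraMap E K (x₀ i)) := hPMalg _ (by
      have h2 := PMon.of_mo (P := lo (V.comap (algebraMap E K)).toSubring C) (x := x₀)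
        (Pi.single i 1)
      rwa [mo_single] at h2)
    refine ⟨algebraMap E K (x₀ i * fb ^ k), ⟨hRA _ hk, mon_alg (mul_ne_zero
      (hreg₀.ne i) (pow_ne_zero _ hfb0)), ?_⟩, algebraMap E K (fb ^ k), hfbpow k, ?_⟩
    · rw [map_mul]
      exact h1.mul hreg.ne (hfbpow k).2.2
    · rw [map_mul, mul_assoc, mul_inv_cancel₀ (mon_ne (hfbpow k).2.1 hy), mul_one]
  have hFT : ∀ t ∈ T, t ∈ Fr := by
    intro t ht
    obtain ⟨γ, m, rfl⟩ := hTm t ht
    refine hFmul _ ?_ _ (hFmo y hFy m)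
    have h1 : algebraMap E K (mo x₀ γ) = mo (fun i => algebraMap E K (x₀ i)) γ := by
      unfold mo
      rw [map_prod]
      exact Finset.prod_congr rfl fun i _ => map_zpow₀ _ _ _
    rw [h1]
    exact hFmo _ hFx γ
  -- the denominators
  set T' : Set K := T ∪ algebraMap E K '' Wb with hT'
  have hTf' : T'.Finite := hTf.union (hWbf.image _)
  have hdT : ∀ t ∈ T', ∃ β ∈ A, PMon P x β ∧ β * t ∈ A := by
    rintro t (ht | ⟨w, hw, rfl⟩)
    · obtain ⟨α, hα, β, hβ, h1⟩ := hFT t ht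
      refine ⟨β, hβ.1, hβ.2.2, ?_⟩
      have h2 : β * t = α := by
        rw [h1, mul_comm, mul_assoc, inv_mul_cancel₀ (mon_ne hβ.2.1 hy), mul_one]
      rw [h2]
      exact hα.1
    · refine ⟨algebraMap E K fb, hfbQ.1, hfbQ.2.2, ?_⟩
      rw [← map_mul, mul_comm]
      exact hRA _ (hWb w hw).2
  set B' := Subring.closure ((A : Set K) ∪ T') with hB'
  have hB'P : B' ≤ P := by
    rw [hB', Subring.closure_le]
    rintro z (hz | hz | ⟨w, hw, rfl⟩)
    · exact hAP hz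
    · exact hTP z hz
    · exact hCP _ (Subring.subset_closure (Or.inr hw))
  have hBB' : B ≤ B' := by
    rw [hB, Subring.closure_le]
    rintro z (⟨c, hc, rfl⟩ | hz)
    · have h1 : C ≤ B'.comap (algebraMap E K) := by
        rw [hC, Subring.closure_le]
        rintro c (hc | hc)
        · exact Subring.subset_closure (Or.inl (hRA c hc))
        · exact Subring.subset_closure (Or.inr (Or.inr ⟨c, hc, rfl⟩))
      exact h1 hc
    · exact Subring.subset_closure (Or.inr (Or.inl hz))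
  have hPP : PP V A T' = P := lo_eq hBV hBB' hB'P
  have hdP : ∀ z ∈ P, ∃ β ∈ A, PMon P x β ∧ β * z ∈ A := by
    intro z hz
    obtain ⟨a, ha, b, hb, hb0, hbV, rfl⟩ := hz
    obtain ⟨β, hβ, hβm, hβa⟩ := den_closure hreg.ne hdT a (hBB' ha)
    obtain ⟨γ, hγ, hγm, hγb⟩ := den_closure hreg.ne hdT b (hBB' hb)
    refine ⟨β * (γ * b), A.mul_mem hβ hγb, hβm.mul hreg.ne (hγm.mul hreg.ne
      (pmon_unit hb0 (hBP hb) (inv_mem_lo hBV (hBP hb) hb0 hbV))), ?_⟩
    have e1 : β * (γ * b) * (a * b⁻¹) = β * a * γ := by field_simp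
    rw [e1]
    exact A.mul_mem hβa hγ
  obtain ⟨β, hβ, hβm, hβT⟩ := exists_den (A := A) (P := P) hreg.ne
    (hTf'.union (Set.finite_range x)) (by
      rintro z (hz | ⟨i, rfl⟩)
      · exact hdT z hz
      · exact hdP _ (hreg.mem i))
  let e' : Fin (Fintype.card κ) ≃ κ := (Fintype.equivFin κ).symm
  refine ⟨T', Fintype.card κ, fun k => x (e' k), ⟨hTf', ?_, β, hβ, ?_,
    fun t ht => hβT t (Or.inl ht), fun i => hβT _ (Or.inr ⟨_, rfl⟩)⟩, ?_⟩
  · rw [hPP]
    exact regP_equiv hreg e'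
  · rw [hPP]
    exact pmon_equiv e' hβm
  · intro g hg
    rw [hPP]
    exact pmon_equiv e' (hZPM g (Or.inl (Or.inr hg)))

end Pool.Agent.N102.FL.STG
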