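import Pool.Agent.TH214.V.ClosV
import Pool.Agent.N102.FL.Stm

/-!
Project FL (helper102): equations relative to parameters together with equations between the
parameters.
-/

set_option autoImplicit false
set_option linter.unusedSectionVars false

universe u

open Pool.Agent.TH214.V

namespace Pool.Agent.N102.FL

section gvex

variable {k κ : Type u} [Field k] [Field κ] [Algebra k κ] {J0 J Jv0 Jv : Type}
  [Fintype J0] [Fintype J] [Fintype Jv0] [Fintype Jv]

lemma gv_ex (ι : J0 ↪ J) (ε : Jv ↪ J) (G : (J0 → ℤ) →₀ k) (l : J → ℤ) (z : J → κ) (j : Jv) :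
    TH214.V.gv (exF ι G) ε l z j = ∑ m ∈ TH214.face G (fun i => l (ι i)),
      algebraMap k κ (G m) * ((exE ι m (ε j) : ℤ) : κ) * ∏ i, z (ι i) ^ m i := by
  unfold TH214.V.gv
  rw [exF_face, Finset.sum_map]
  refine Finset.sum_congr rfl fun m _ => ?_
  rw [exF_apply, exE_prod]

lemma gv_ex_of (ι : J0 ↪ J) (ε : Jv ↪ J) (e0 : Jv0 ↪ J0) (ιv : Jv0 ↪ Jv)
    (h : ∀ b, ε (ιv b) = ι (e0 b)) (G : (J0 → ℤ) →₀ k) (l : J → ℤ) (z : J → κ) (b : Jv0) :
    TH214.V.gv (exF ι G) ε l z (ιv b) =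
      TH214.V.gv G e0 (fun i => l (ι i)) (fun i => z (ι i)) b := by
  rw [gv_ex, h]
  unfold TH214.V.gv
  refine Finset.sum_congr rfl fun m _ => ?_
  rw [exE_apply]

lemma gv_ex_not (ι : J0 ↪ J) (ε : Jv ↪ J) (G : (J0 → ℤ) →₀ k) (l : J → ℤ) (z : J → κ) (j : Jv)
    (h : ε j ∉ Set.range ι) : TH214.V.gv (exF ι G) ε l z j = 0 := by
  rw [gv_ex]
  refine Finset.sum_eq_zero fun m _ => ?_
  rw [exE_of_not ι m (ε j) h, Int.cast_zero, mul_zero, zero_mul]

end gvex

/-- Equations `G` relative to parameters together with equations `L` between the parameters. -/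
theorem comb {k : Type u} [Field k] {J0 Jv0 T J Jv σ τ Ix : Type} [Fintype J0] [Fintype Jv0]
    [Fintype T] [Fintype J] [Fintype Jv] (G : σ → (J0 → ℤ) →₀ k) (F : τ → (J0 → ℤ) →₀ k)
    (e0 : Jv0 ↪ J0) (tw : τ → Prop) (c : ℕ) (hND : NDVc G F e0 tw c)
    (L : Ix → (T → ℤ) →₀ k) (d : ℕ)
    (hL : ∀ (l : T → ℤ) (z : T → AlgebraicClosure k), (∀ t, z t ≠ 0) →
      (∀ i, TH214.vl (L i) l z = 0) → d ≤ Module.finrank (AlgebraicClosure k)
        (Submodule.span (AlgebraicClosure k)
          (Set.range fun i => TH214.V.gv (L i) (Function.Embedding.refl T) l z)))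
    (ι : J0 ↪ J) (ζ : T ↪ J) (ε : Jv ↪ J) (ιv : Jv0 ↪ Jv) (hιv : ∀ b, ε (ιv b) = ι (e0 b))
    (ζv : T ↪ Jv) (hζv : ∀ t, ε (ζv t) = ζ t) (hdis : ∀ b t, ιv b ≠ ζv t) :
    NDVc (Sum.elim (fun s => exF ι (G s)) (fun i => exF ζ (L i))) (fun t => exF ι (F t)) ε tw
      (c + d) := by
  intro l z hz hv
  obtain ⟨h1, h2⟩ := hND (fun i => l (ι i)) (fun i => z (ι i)) (fun i => hz _) (fun s => by
    have := hv (Sum.inl s)
    rwa [Sum.elim_inl, exF_vl] at this)
  have h3 := hL (fun i => l (ζ i)) (fun i => z (ζ i)) (fun i => hz _) (fun i => by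
    have := hv (Sum.inr i)
    rwa [Sum.elim_inr, exF_vl] at this)
  let π : (Jv → AlgebraicClosure k) →ₗ[AlgebraicClosure k] (Jv0 → AlgebraicClosure k) := LinearMap.funLeft (AlgebraicClosure k) (AlgebraicClosure k) ιv
  let πT : (Jv → AlgebraicClosure k) →ₗ[AlgebraicClosure k] (T → AlgebraicClosure k) := LinearMap.funLeft (AlgebraicClosure k) (AlgebraicClosure k) ζv
  have hπG : ∀ s, π (TH214.V.gv (exF ι (G s)) ε l z) =
      TH214.V.gv (G s) e0 (fun i => l (ι i)) (fun i => z (ι i)) := by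
    intro s
    funext b
    exact gv_ex_of ι ε e0 ιv hιv (G s) l z b
  have hπF : ∀ t, π (TH214.V.gv (exF ι (F t)) ε l z) =
      TH214.V.gv (F t) e0 (fun i => l (ι i)) (fun i => z (ι i)) := by
    intro s
    funext b
    exact gv_ex_of ι ε e0 ιv hιv (F s) l z b
  have hπL : ∀ i, π (TH214.V.gv (exF ζ (L i)) ε l z) = 0 := by
    intro i
    funext b
    refine gv_ex_not ζ ε (L i) l z (ιv b) ?_
    rintro ⟨t, ht⟩
    rw [← hζv] at ht
    exact hdis b t (ε.injective ht).symm
  have hπT : ∀ i, πT (TH214.V.gv (exF ζ (L i)) ε l z) =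
      TH214.V.gv (L i) (Function.Embedding.refl T) (fun i => l (ζ i)) (fun i => z (ζ i)) := by
    intro i
    funext t
    exact gv_ex_of ζ ε (Function.Embedding.refl T) ζv (fun b => hζv b) (L i) l z t
  set W := Submodule.span (AlgebraicClosure k) (Set.range fun s : σ ⊕ Ix =>
    TH214.V.gv (Sum.elim (fun s => exF ι (G s)) (fun i => exF ζ (L i)) s) ε l z) with hW
  set B := Submodule.span (AlgebraicClosure k) (Set.range fun i => TH214.V.gv (exF ζ (L i)) ε l z) with hB
  have hBW : B ≤ W := by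
    refine Submodule.span_mono ?_
    rintro _ ⟨i, rfl⟩
    exact ⟨Sum.inr i, rfl⟩
  refine ⟨?_, ?_⟩
  · have e1 : c ≤ Module.finrank (AlgebraicClosure k) (LinearMap.range (π.domRestrict W)) := by
      refine h1.trans (Submodule.finrank_mono ?_)
      rw [Submodule.span_le]
      rintro _ ⟨s, rfl⟩
      refine ⟨⟨_, Submodule.subset_span ⟨Sum.inl s, rfl⟩⟩, ?_⟩
      exact hπG s
    have e2 : d ≤ Module.finrank (AlgebraicClosure k) (LinearMap.ker (π.domRestrict W)) := by
      have e3 : d ≤ Module.finrank (AlgebraicClosure k) B := by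
        refine h3.trans ?_
        have e4 : Submodule.span (AlgebraicClosure k) (Set.range fun i => TH214.V.gv (L i)
            (Function.Embedding.refl T) (fun i => l (ζ i)) (fun i => z (ζ i))) ≤
            B.map πT := by
          rw [Submodule.span_le]
          rintro _ ⟨i, rfl⟩
          exact ⟨_, Submodule.subset_span ⟨i, rfl⟩, hπT i⟩
        exact (Submodule.finrank_mono e4).trans (Submodule.finrank_map_le πT B)
      have e5 : B.comap W.subtype ≤ LinearMap.ker (π.domRestrict W) := by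
        rintro ⟨v, hv'⟩ hvB
        have hvB' : v ∈ B := hvB
        have e6 : B ≤ LinearMap.ker π := by
          rw [hB, Submodule.span_le]
          rintro _ ⟨i, rfl⟩
          exact hπL i
        exact e6 hvB'
      refine e3.trans ?_
      rw [← (Submodule.comapSubtypeEquivOfLe hBW).finrank_eq]
      exact Submodule.finrank_mono e5
    have e7 := LinearMap.finrank_range_add_finrank_ker (π.domRestrict W)
    change c + d ≤ Module.finrank (AlgebraicClosure k) W
    omega
  · intro t0 ht0 hmem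
    have hwt : ∀ t, (∃ m ∈ (exF ι (F t)).support, ∑ j, l j * m j < 0) ↔
        ∃ m ∈ (F t).support, ∑ i, l (ι i) * m i < 0 := fun t => exF_wt ι (F t) l (· < 0)
    have hwt' : ∀ t, (∃ m ∈ (exF ι (F t)).support, ∑ j, l j * m j ≤ 0) ↔
        ∃ m ∈ (F t).support, ∑ i, l (ι i) * m i ≤ 0 := fun t => exF_wt ι (F t) l (· ≤ 0)
    refine h2 t0 (ht0.imp_right (hwt t0).1) ?_
    have e1 := Submodule.mem_map_of_mem (f := π) hmem
    rw [hπF, Submodule.map_span] at e1
    refine (Submodule.span_le.2 ?_) e1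
    rintro _ ⟨v, hv1, rfl⟩
    rcases hv1 with ⟨s, rfl⟩ | ⟨t, hne, ht, rfl⟩
    · rcases s with s | i
      · change π (TH214.V.gv (exF ι (G s)) ε l z) ∈ _
        rw [hπG]
        exact Submodule.subset_span (Or.inl ⟨s, rfl⟩)
      · change π (TH214.V.gv (exF ζ (L i)) ε l z) ∈ _
        rw [hπL]
        exact Submodule.zero_mem _
    · rw [hπF]
      exact Submodule.subset_span (Or.inr ⟨t, hne, ht.imp_right (hwt' t).1, rfl⟩)

end Pool.Agent.N102.FL
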