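import Pool.Agent.TH214.SD.Defs

/-!
# Relative schön systems over systems of linear relations with Frobenius levels: definitions
-/

set_option autoImplicit false

universe u

open Pool.Agent.TH188.VT Pool.Agent.TH214.SD

namespace Pool.Agent.N102.FL

section

variable {k K : Type u} [Field k] [Field K] [Algebra k K] {m h s n q r o a : ℕ}
  (E : Fin m → IntermediateField k K)

/-- The elements `z 1, ..., z s` and `x 1, ..., x n` of the extension `K` of `k` are the
coordinates of a relative schön system over a system of linear relations with Frobenius levels:
`E 1, ..., E m` are linearly disjoint function fields of surfaces over `k`, the `u a` are products of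
nonzero elements of the `E i`, the `x j ≠ 0` satisfy the equations `G i ((u, z), x) = 0`, where the
`G i` are Laurent polynomials which are schön of codimension at least `c` with respect to the
last variables, relative to the torus of the variables of `(u, z)`, and the only condition on the
`z t ≠ 0` is the following: if `D` is the dimension of the space over `k` which is generated by `1` and the
powers `z t ^ (p ^ e t)` (so that there are `s + 1 - D` independent linear relations between
them), the transcendence degree of `K` over the compositum of the `E i` is at least
`(D - 1) + (n - c)`. -/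
structure IsLeveledSystem (p c : ℕ) (u : Fin h → K) (e : Fin s → ℕ) (z : Fin s → K)
    (x : Fin n → K) (G : Fin q → (Fin (h + s) ⊕ Fin n → ℤ) →₀ k) : Prop where
  surfaces : AreIndependentSurfaceFields E
  products : ∀ a, u a ≠ 0 ∧ ∃ v : ∀ i, E i, u a = ∏ i, (v i : K)
  ne_zero : (∀ t, z t ≠ 0) ∧ ∀ j, x j ≠ 0
  equations : ∀ i, value (G i) (Fin.append u z) x = 0
  schon : SchonEquations G c
  dimension : ((n + Module.finrank k (Submodule.span k
      (insert (1 : K) (Set.range fun t => z t ^ p ^ e t))) : ℕ) : Cardinal.{u}) ≤
    Algebra.trdeg (IntermediateField.adjoin k (⋃ i, (E i : Set K))) K + ((c + 1 : ℕ) : Cardinal.{u})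

/-- `K` is generated by the `E i`, the `z t`, the `x j` and elements `w j` such that either all
`w j ^ p - w j` are linear combinations with integral coefficients of functions `f i ∈ E i` and of the
elements `F t ((u, z), x)`, or all `w j ^ p` are linear combinations with coefficients in `k` of
products `g t 1 * ... * g t m` of elements `g t i ∈ E i`, where for each `i` at most one of the
`g t i` is not a `p`-th power in `E i`, and of the elements `F t ((u, z), x)`. Here the `F t` are Laurent
polynomials which are strongly nondegenerate, with respect to the last variables, on the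
subscheme given by the `G i`. -/
structure IsGeneratedBy (p : ℕ) (u : Fin h → K) (z : Fin s → K) (x : Fin n → K)
    (G : Fin q → (Fin (h + s) ⊕ Fin n → ℤ) →₀ k) (f : ∀ i, E i) (g : Fin o → ∀ i, E i)
    (F : Fin a → (Fin (h + s) ⊕ Fin n → ℤ) →₀ k) (w : Fin r → K) : Prop where
  nondegenerate : StronglyNondegenerateOn G F
  roots : (∀ j, w j ^ p - w j ∈ AddSubgroup.closure ((Set.range fun i => (f i : K)) ∪
      Set.range fun t => value (F t) (Fin.append u z) x)) ∨
    ((∀ i t t', t ≠ t' → (∃ b, b ^ p = g t i) ∨ ∃ b, b ^ p = g t' i) ∧
      ∀ j, w j ^ p ∈ Submodule.span k ((Set.range fun t => ∏ i, (g t i : K)) ∪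
        Set.range fun t => value (F t) (Fin.append u z) x))
  generate : IntermediateField.adjoin k
    (Set.range w ∪ (Set.range z ∪ Set.range x ∪ ⋃ i, (E i : Set K))) = ⊤

end

end Pool.Agent.N102.FL
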