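import Pool.Agent.TH214.SD.Main
import Pool.Agent.N102.FL.Comb
import Pool.Agent.N102.FL.Defs

/-!
Project FL (helper102): models of relative schön systems over systems of linear relations with
Frobenius levels.
-/

set_option autoImplicit false
set_option linter.unusedVariables false
set_option linter.unusedSectionVars false

universe u

open Pool.Agent.TH188.VT Pool.Agent.TH214.SD Pool.Agent.TH214.V Pool.Agent.TH188.WP
  Pool.Agent.TH188.WQ Pool.Agent.W558 Pool.Agent.TH188.VQ Pool.Agent.W558.WT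
  AlgebraicGeometry CategoryTheory

namespace Pool.Agent.N102.FL

section basics

variable {k K : Type u} [Field k] [Field K] [Algebra k K]

lemma value_mem {h n : ℕ} (F : (Fin h ⊕ Fin n → ℤ) →₀ k) (u : Fin h → K) (y : Fin n → K)
    (L : IntermediateField k K) (hu : ∀ a, u a ∈ L) (hy : ∀ j, y j ∈ L) : value F u y ∈ L := by
  unfold value
  refine sum_mem fun e _ => ?_
  refine L.smul_mem (prod_mem fun j _ => zpow_mem ?_ _)
  rcases j with j | j
  · exact hu j
  · exact hy j

/-- The field `K` is algebraic over the field generated by the `E i` and the `y j`. -/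
lemma algebraic_of {m r N : ℕ} (p : ℕ) (hp : 1 < p) (E : Fin m → IntermediateField k K)
    (w : Fin r → K) (y : Fin N → K)
    (hw : ∀ j, w j ^ p - w j ∈ IntermediateField.adjoin k (Set.range y ∪ ⋃ i, (E i : Set K)) ∨
      w j ^ p ∈ IntermediateField.adjoin k (Set.range y ∪ ⋃ i, (E i : Set K)))
    (hgen : IntermediateField.adjoin k (Set.range w ∪ (Set.range y ∪ ⋃ i, (E i : Set K))) = ⊤) :
    Algebra.IsAlgebraic
      (Algebra.adjoin (IntermediateField.adjoin k (⋃ i, (E i : Set K))) (Set.range y)) K := by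
  set F0 := IntermediateField.adjoin k (⋃ i, (E i : Set K)) with hF0
  let L := IntermediateField.adjoin F0 (Set.range y)
  have hyL : ∀ j, y j ∈ L := fun j => IntermediateField.subset_adjoin F0 _ ⟨j, rfl⟩
  have hEL : ∀ i, ∀ a ∈ E i, a ∈ L := by
    intro i a ha
    have h1 : a ∈ F0 := IntermediateField.subset_adjoin k _ (Set.mem_iUnion.2 ⟨i, ha⟩)
    exact L.algebraMap_mem (⟨a, h1⟩ : F0)
  have hL' : IntermediateField.adjoin k (Set.range y ∪ ⋃ i, (E i : Set K)) ≤
      L.restrictScalars k := by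
    rw [IntermediateField.adjoin_le_iff]
    rintro a (⟨j, rfl⟩ | ha)
    · exact hyL j
    · obtain ⟨i, hi⟩ := Set.mem_iUnion.1 ha
      exact hEL i a hi
  have halgw : ∀ j, IsAlgebraic L (w j) := by
    intro j
    rcases hw j with h | h
    · have h1 : w j ^ p - w j ∈ L := hL' h
      refine ⟨Polynomial.X ^ p - Polynomial.X - Polynomial.C (⟨_, h1⟩ : L), ?_, ?_⟩
      · intro h0
        have h2 := congrArg (fun P : Polynomial L => P.coeff p) h0
        simp only [Polynomial.coeff_sub, Polynomial.coeff_X_pow, if_true, Polynomial.coeff_zero,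
          Polynomial.coeff_X_of_ne_one hp.ne', Polynomial.coeff_C_of_ne_zero (by omega : p ≠ 0),
          sub_zero, one_ne_zero] at h2
      · simp only [map_sub, map_pow, Polynomial.aeval_X, Polynomial.aeval_C]
        exact sub_self _
    · have h1 : w j ^ p ∈ L := hL' h
      refine ⟨Polynomial.X ^ p - Polynomial.C (⟨_, h1⟩ : L), ?_, ?_⟩
      · exact Polynomial.X_pow_sub_C_ne_zero (by omega) _
      · simp only [map_sub, map_pow, Polynomial.aeval_X, Polynomial.aeval_C]
        exact sub_self _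
  have halg : Algebra.IsAlgebraic L K := by
    let M : IntermediateField k K :=
      Subfield.toIntermediateField (algebraicClosure L K).toSubfield fun x =>
        (algebraicClosure L K).algebraMap_mem (⟨algebraMap k K x,
          L.algebraMap_mem (⟨algebraMap k K x, F0.algebraMap_mem x⟩ : F0)⟩ : L)
    have h3 : IntermediateField.adjoin k (Set.range w ∪ (Set.range y ∪ ⋃ i, (E i : Set K))) ≤
        M := by
      rw [IntermediateField.adjoin_le_iff]
      rintro a (⟨j, rfl⟩ | ⟨j, rfl⟩ | ha)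
      · have h4 : w j ∈ algebraicClosure L K := mem_algebraicClosure_iff.2 (halgw j)
        exact h4
      · have h4 : y j ∈ algebraicClosure L K :=
          (algebraicClosure L K).algebraMap_mem (⟨_, hyL j⟩ : L)
        exact h4
      · obtain ⟨i, hi⟩ := Set.mem_iUnion.1 ha
        have h4 : a ∈ algebraicClosure L K :=
          (algebraicClosure L K).algebraMap_mem (⟨_, hEL i a hi⟩ : L)
        exact h4
    refine ⟨fun x => ?_⟩
    have h5 : x ∈ M := h3 (by rw [hgen]; trivial)
    have h6 : x ∈ algebraicClosure L K := h5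
    exact mem_algebraicClosure_iff.1 h6
  open scoped IntermediateField.algebraAdjoinAdjoin in
  exact (IsFractionRing.comap_isAlgebraic_iff (A := Algebra.adjoin F0 (Set.range y)) (K := L)
    (C := K)).2 halg

/-- A transcendence basis among the `y j`. -/
lemma exists_rho {N : ℕ} (F0 : IntermediateField k K) (y : Fin N → K)
    (halg : Algebra.IsAlgebraic (Algebra.adjoin F0 (Set.range y)) K) :
    ∃ (d : ℕ) (ρ : Fin d → Fin N), AlgebraicIndependent F0 (y ∘ ρ) ∧
      Algebra.trdeg F0 K = (d : Cardinal.{u}) ∧ d ≤ N := by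
  classical
  obtain ⟨t, ht, hbt⟩ := exists_isTranscendenceBasis_subset (R := F0) (Set.range y)
  have htf : t.Finite := (Set.finite_range y).subset ht
  have : Fintype t := htf.fintype
  choose ρ0 hρ0 using fun a : t => ht a.2
  let e := (Fintype.equivFin t).symm
  refine ⟨Fintype.card t, ρ0 ∘ e, ?_, ?_, ?_⟩
  · have h1 := hbt.1.comp e e.injective
    have h2 : y ∘ (ρ0 ∘ e) = (fun a : t => (a : K)) ∘ e := by
      funext i
      exact hρ0 (e i)
    rw [h2]
    exact h1
  · rw [← hbt.cardinalMk_eq_trdeg]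
    exact Cardinal.mk_fintype t
  · have hinj : Function.Injective ρ0 := by
      intro a b hab
      apply Subtype.ext
      rw [← hρ0 a, ← hρ0 b, hab]
    have := Fintype.card_le_of_injective ρ0 hinj
    rwa [Fintype.card_fin] at this

end basics

section emb

variable {h s n N : ℕ} {I : Type}

/-- The variables of the relative system among all variables. -/
def iotaFun (ε : ((Fin s ⊕ I) ⊕ Fin n) ≃ Fin N) : (Fin h ⊕ Fin s) ⊕ Fin n → Fin h ⊕ Fin N :=
  Sum.elim (Sum.map id fun t => ε (Sum.inl (Sum.inl t))) fun j => Sum.inr (ε (Sum.inr j))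

lemma iotaFun_injective (ε : ((Fin s ⊕ I) ⊕ Fin n) ≃ Fin N) :
    Function.Injective (iotaFun (h := h) ε) := by
  rintro ((a | a) | a) ((b | b) | b) hab
  · simp only [iotaFun, Sum.elim_inl, Sum.map_inl, id_eq, Sum.inl.injEq] at hab
    rw [hab]
  · simp [iotaFun] at hab
  · simp [iotaFun] at hab
  · simp [iotaFun] at hab
  · simp only [iotaFun, Sum.elim_inl, Sum.map_inr, Sum.inr.injEq, EmbeddingLike.apply_eq_iff_eq,
      Sum.inl.injEq] at hab
    rw [hab]
  · simp [iotaFun] at hab
  · simp [iotaFun] at hab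
  · simp [iotaFun] at hab
  · simp only [iotaFun, Sum.elim_inr, Sum.inr.injEq, EmbeddingLike.apply_eq_iff_eq] at hab
    rw [hab]

/-- The embedding of the variables of the relative system. -/
def iota (ε : ((Fin s ⊕ I) ⊕ Fin n) ≃ Fin N) : (Fin (h + s) ⊕ Fin n) ↪ Fin h ⊕ Fin N :=
  (Equiv.sumCongr finSumFinEquiv.symm (Equiv.refl (Fin n))).toEmbedding.trans
    ⟨iotaFun ε, iotaFun_injective ε⟩

/-- The embedding of the variables of the leveled system. -/
def zeta (ε : ((Fin s ⊕ I) ⊕ Fin n) ≃ Fin N) : (Fin s ⊕ I) ↪ Fin h ⊕ Fin N :=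
  ⟨fun t => Sum.inr (ε (Sum.inl t)), fun a b hab => by
    simpa using hab⟩

def iotav (ε : ((Fin s ⊕ I) ⊕ Fin n) ≃ Fin N) : Fin n ↪ Fin N :=
  ⟨fun t => ε (Sum.inr t), fun a b hab => by simpa using hab⟩

def zetav (ε : ((Fin s ⊕ I) ⊕ Fin n) ≃ Fin N) : (Fin s ⊕ I) ↪ Fin N :=
  ⟨fun t => ε (Sum.inl t), fun a b hab => by simpa using hab⟩

lemma iota_inr (ε : ((Fin s ⊕ I) ⊕ Fin n) ≃ Fin N) (j : Fin n) :
    iota (h := h) ε (Sum.inr j) = Sum.inr (ε (Sum.inr j)) := rfl

lemma elim_iota {K : Type u} (ε : ((Fin s ⊕ I) ⊕ Fin n) ≃ Fin N) (u : Fin h → K) (z : Fin s → K)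
    (z' : I → K) (x : Fin n → K) (j : Fin (h + s) ⊕ Fin n) :
    Sum.elim u (Sum.elim (Sum.elim z z') x ∘ ε.symm) (iota ε j) =
      Sum.elim (Fin.append u z) x j := by
  rcases j with b | j
  · obtain ⟨b', rfl⟩ := finSumFinEquiv.surjective b
    have h1 : iota ε (Sum.inl (finSumFinEquiv b')) = iotaFun ε (Sum.inl b') := by
      change iotaFun ε (Sum.inl (finSumFinEquiv.symm (finSumFinEquiv b'))) = _
      rw [Equiv.symm_apply_apply]
    rw [h1]
    rcases b' with a | t
    · simp [iotaFun]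
    · simp [iotaFun]
  · simp [iota_inr]

end emb

section equations

variable {p : ℕ} [Fact p.Prime] {k K : Type u} [Field k] [CharP k p] [PerfectRing k p] [Field K]
  [Algebra k K]

lemma rt_pow (f : ℕ) (a : k) : rt p f a ^ p ^ f = a := by
  have h := (iterateFrobeniusEquiv k p f).apply_symm_apply a
  rw [iterateFrobeniusEquiv_apply] at h
  exact h

lemma lp_value (hform : S_FORM.{u}) {T : Type} [Fintype T] (e : T → ℕ) (z : T → K) (f : ℕ)
    (c : Option T → k) (hc : c ∈ Rel k p e z) (hl : LevelGe e f c) :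
    TH214.V.lv (LP p e f c) z = 0 := by
  have hp : p.Prime := Fact.out
  have hcK : CharP K p := charP_of_injective_algebraMap (algebraMap k K).injective p
  have hf : TH214.V.lv (LP p e f c) z = FL.lv (LP p e f c) z := rfl
  rw [hf, (hform p k K T e f c hl 0 z).2.2]
  have h1 : (∑ o, algebraMap k K (rt p f (c o)) * mv p e f z o) ^ p ^ f = 0 := by
    rw [sum_pow_char_pow]
    have h2 : ∑ o, c o • pw p e z o = 0 := by
      have := LinearMap.mem_ker.1 hc
      rwa [Fintype.linearCombination_apply] at this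
    rw [← h2]
    refine Finset.sum_congr rfl fun o _ => ?_
    by_cases hco : c o = 0
    · have h3 : rt p f (c o) = 0 := by
        rw [hco]
        exact map_zero _
      rw [h3, map_zero, zero_mul, hco, zero_smul, zero_pow (pow_ne_zero f hp.ne_zero)]
    · rw [mul_pow, ← map_pow, rt_pow, Algebra.smul_def]
      congr 1
      rcases o with _ | t
      · exact one_pow _
      · change (z t ^ p ^ (e t - f)) ^ p ^ f = z t ^ p ^ e t
        rw [← pow_mul, ← pow_add, Nat.sub_add_cancel (hl t hco)]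
  exact pow_eq_zero_iff (pow_ne_zero f hp.ne_zero) |>.1 h1

end equations

section main

variable {p : ℕ} [Fact p.Prime] {k K : Type u} [Field k] [PerfectField k] [CharP k p] [Field K]
  [Algebra k K] {m h s n q r o a c : ℕ} {E : Fin m → IntermediateField k K}
  {u : Fin h → K} {e : Fin s → ℕ} {z : Fin s → K} {x : Fin n → K}
  {G : Fin q → (Fin (h + s) ⊕ Fin n → ℤ) →₀ k} {f : ∀ i, E i} {g : Fin o → ∀ i, E i}
  {F : Fin a → (Fin (h + s) ⊕ Fin n → ℤ) →₀ k} {w : Fin r → K}

omit [PerfectField k] [Fact p.Prime] [CharP k p] [Field K] [Algebra k K] in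
lemma grad_eq {h' n' : ℕ} (P : (Fin h' ⊕ Fin n' → ℤ) →₀ k) (l : Fin h' ⊕ Fin n' → ℤ)
    (ζ : Fin h' ⊕ Fin n' → AlgebraicClosure k) : initialGradient P l ζ =
      TH214.V.gv P (Function.Embedding.inr : Fin n' ↪ Fin h' ⊕ Fin n') l ζ := rfl

/-- The full system of equations is schön. -/
theorem exists_schon (hsat : S_SAT.{u}) (hrank : S_RANK.{u}) (hform : S_FORM.{u})
    (hfam : S_FAM.{u}) (hdim : S_DIM.{u}) (hB : IsLeveledSystem E p c u e z x G)
    (hC : IsGeneratedBy E p u z x G f g F w) :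
    ∃ (N q' d c' : ℕ) (y : Fin N → K) (G' : Fin q' → (Fin h ⊕ Fin N → ℤ) →₀ k)
      (F' : Fin a → (Fin h ⊕ Fin N → ℤ) →₀ k) (ρ : Fin d → Fin N) (ν : Fin (s + n) ↪ Fin N),
      IsSchonBase E c' u y G' ρ ∧ StronglyNondegenerateOn G' F' ∧
      (∀ t, value (F' t) u y = value (F t) (Fin.append u z) x) ∧
      (∀ j, y (ν j) = Fin.append z x j) ∧
      IntermediateField.adjoin k (Set.range w ∪ (Set.range y ∪ ⋃ i, (E i : Set K))) = ⊤ := by
  classical
  have hp : p.Prime := Fact.out
  have hcK : CharP K p := charP_of_injective_algebraMap (algebraMap k K).injective p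
  have : ExpChar k p := ExpChar.prime hp
  have : PerfectRing k p := PerfectField.toPerfectRing p
  obtain ⟨I, _, e', z', hz', hspan, hS⟩ := hsat p k K (Fin s) e z hB.ne_zero.1
  obtain ⟨Ix, _, fx, cx, hsp⟩ := hfam k (Fin s ⊕ I) (Sum.elim e e')
    (Rel k p (Sum.elim e e') (Sum.elim z z'))
  set N := Fintype.card ((Fin s ⊕ I) ⊕ Fin n) with hN
  obtain ⟨ε⟩ : Nonempty (((Fin s ⊕ I) ⊕ Fin n) ≃ Fin N) := ⟨Fintype.equivFin _⟩
  let y : Fin N → K := Sum.elim (Sum.elim z z') x ∘ ε.symm
  have hyz : ∀ t, y (ε (Sum.inl t)) = Sum.elim z z' t := fun t => by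
    change Sum.elim (Sum.elim z z') x (ε.symm (ε _)) = _
    rw [Equiv.symm_apply_apply]
    rfl
  have hyx : ∀ j, y (ε (Sum.inr j)) = x j := fun j => by
    change Sum.elim (Sum.elim z z') x (ε.symm (ε _)) = _
    rw [Equiv.symm_apply_apply]
    rfl
  have hzz : ∀ t, Sum.elim z z' t ≠ 0 := by
    rintro (t | i)
    · exact hB.ne_zero.1 t
    · exact hz' i
  have hy0 : ∀ j, y j ≠ 0 := by
    intro j
    obtain ⟨t | j, rfl⟩ := ε.surjective j
    · rw [hyz]; exact hzz t
    · rw [hyx]; exact hB.ne_zero.2 j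
  set d0 := Module.finrank k (Rel k p (Sum.elim e e') (Sum.elim z z')) with hd0
  let L : Ix → ((Fin s ⊕ I) → ℤ) →₀ k := fun i => LP p (Sum.elim e e') (fx i) (cx i)
  have hL : ∀ (l : (Fin s ⊕ I) → ℤ) (z : (Fin s ⊕ I) → AlgebraicClosure k), (∀ t, z t ≠ 0) →
      (∀ i, TH214.vl (L i) l z = 0) → d0 ≤ Module.finrank (AlgebraicClosure k)
        (Submodule.span (AlgebraicClosure k)
          (Set.range fun i => TH214.V.gv (L i) (Function.Embedding.refl (Fin s ⊕ I)) l z)) := by
    intro l ζ hζ hv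
    have h1 : ∀ i, vL p (Sum.elim e e') (fx i) (cx i) l ζ = 0 := by
      intro i
      rw [← (hform p k (AlgebraicClosure k) (Fin s ⊕ I) _ (fx i) (cx i) (hsp.1 i).2 l ζ).1]
      exact hv i
    have h2 := hrank p k (AlgebraicClosure k) (Fin s ⊕ I) _ _ Ix fx cx l ζ hS hsp hζ h1
    have h3 : (fun i => TH214.V.gv (L i) (Function.Embedding.refl (Fin s ⊕ I)) l ζ) =
        fun i => gL p (Sum.elim e e') (fx i) (cx i) l ζ := by
      funext i
      exact (hform p k (AlgebraicClosure k) (Fin s ⊕ I) _ (fx i) (cx i) (hsp.1 i).2 l ζ).2.1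
    rw [h3]
    exact h2
  have hND0 : NDVc G F (Function.Embedding.inr : Fin n ↪ Fin (h + s) ⊕ Fin n)
      (fun _ => True) c := by
    intro l ζ hζ hv
    refine ⟨hB.schon l ζ hζ hv, fun t _ => ?_⟩
    have h1 := hC.nondegenerate l ζ hζ hv t
    have h2 : {v | ∃ t', t' ≠ t ∧ (True ∨ ∃ e ∈ (F t').support, ∑ j, l j * e j ≤ 0) ∧
        v = TH214.V.gv (F t') (Function.Embedding.inr : Fin n ↪ Fin (h + s) ⊕ Fin n) l ζ} =
        {v | ∃ t', t' ≠ t ∧ v = initialGradient (F t') l ζ} := by
      ext v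
      constructor
      · rintro ⟨t', h3, h4, h5⟩
        exact ⟨t', h3, h5⟩
      · rintro ⟨t', h3, h5⟩
        exact ⟨t', h3, Or.inl trivial, h5⟩
    rw [h2]
    exact h1
  have hcomb := comb G F _ (fun _ => True) c hND0 L d0 hL (iota (h := h) ε) (zeta ε)
    Function.Embedding.inr (iotav ε) (fun b => rfl) (zetav ε) (fun t => rfl) (by
      intro b t hbt
      have h1 : ε (Sum.inr b) = ε (Sum.inl t) := hbt
      have h2 := ε.injective h1
      simp at h2)
  set GG : Fin q ⊕ Ix → (Fin h ⊕ Fin N → ℤ) →₀ k :=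
    Sum.elim (fun s => exF (iota ε) (G s)) (fun i => exF (zeta ε) (L i)) with hGG
  set q' := Fintype.card (Fin q ⊕ Ix)
  obtain ⟨η⟩ : Nonempty ((Fin q ⊕ Ix) ≃ Fin q') := ⟨Fintype.equivFin _⟩
  let G' : Fin q' → (Fin h ⊕ Fin N → ℤ) →₀ k := fun i => GG (η.symm i)
  let F' : Fin a → (Fin h ⊕ Fin N → ℤ) →₀ k := fun t => exF (iota ε) (F t)
  have hrange : ∀ (l : Fin h ⊕ Fin N → ℤ) (ζ : Fin h ⊕ Fin N → AlgebraicClosure k),
      (Set.range fun i => initialGradient (G' i) l ζ) = Set.range fun i =>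
        TH214.V.gv (GG i) (Function.Embedding.inr : Fin N ↪ Fin h ⊕ Fin N) l ζ := by
    intro l ζ
    simp only [grad_eq]
    ext v
    constructor
    · rintro ⟨i, rfl⟩
      exact ⟨η.symm i, rfl⟩
    · rintro ⟨i, rfl⟩
      refine ⟨η i, ?_⟩
      have e1 : G' (η i) = GG i := congrArg GG (η.symm_apply_apply i)
      simp only [e1]
  have hvv : ∀ (l : Fin h ⊕ Fin N → ℤ) (ζ : Fin h ⊕ Fin N → AlgebraicClosure k),
      (∀ i, initialValue (G' i) l ζ = 0) → ∀ i, TH214.vl (GG i) l ζ = 0 := by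
    intro l ζ hv i
    have h1 := hv (η i)
    have e1 : G' (η i) = GG i := congrArg GG (η.symm_apply_apply i)
    rw [e1] at h1
    exact h1
  -- the dimension
  have hgen : IntermediateField.adjoin k (Set.range w ∪ (Set.range y ∪ ⋃ i, (E i : Set K))) =
      ⊤ := by
    rw [eq_top_iff, ← hC.generate]
    refine IntermediateField.adjoin.mono k _ _ ?_
    refine Set.union_subset_union le_rfl (Set.union_subset_union ?_ le_rfl)
    refine Set.union_subset ?_ ?_
    · rintro _ ⟨t, rfl⟩
      exact ⟨ε (Sum.inl (Sum.inl t)), hyz _⟩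
    · rintro _ ⟨j, rfl⟩
      exact ⟨ε (Sum.inr j), hyx _⟩
  set L1 := IntermediateField.adjoin k (Set.range y ∪ ⋃ i, (E i : Set K)) with hL1
  have hEL : ∀ i (b : E i), (b : K) ∈ L1 := fun i b =>
    IntermediateField.subset_adjoin k _ (Or.inr (Set.mem_iUnion.2 ⟨i, b.2⟩))
  have hyL : ∀ j, y j ∈ L1 := fun j => IntermediateField.subset_adjoin k _ (Or.inl ⟨j, rfl⟩)
  have huL : ∀ b, Fin.append u z b ∈ L1 := by
    intro b
    obtain ⟨b' | t, rfl⟩ := finSumFinEquiv.surjective b
    · rw [finSumFinEquiv_apply_left, Fin.append_left]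
      obtain ⟨v, hv⟩ := (hB.products b').2
      rw [hv]
      exact prod_mem fun i _ => hEL i (v i)
    · rw [finSumFinEquiv_apply_right, Fin.append_right]
      have := hyL (ε (Sum.inl (Sum.inl t)))
      rwa [hyz] at this
  have hxL : ∀ j, x j ∈ L1 := fun j => by
    have := hyL (ε (Sum.inr j))
    rwa [hyx] at this
  have hFL : ∀ t, value (F t) (Fin.append u z) x ∈ L1 := fun t =>
    value_mem (F t) _ _ L1 huL hxL
  have halg := algebraic_of p hp.one_lt E w y (by
    intro j
    rcases hC.roots with h1 | ⟨-, h1⟩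
    · left
      refine (AddSubgroup.closure_le (K := L1.toSubfield.toAddSubgroup)).2 ?_ (h1 j)
      rintro _ (⟨i, rfl⟩ | ⟨t, rfl⟩)
      · exact hEL i (f i)
      · exact hFL t
    · right
      refine (Submodule.span_le (p := L1.toSubalgebra.toSubmodule)).2 ?_ (h1 j)
      rintro _ (⟨t, rfl⟩ | ⟨t, rfl⟩)
      · have h2 : ∏ i, (g t i : K) ∈ L1 := prod_mem fun i _ => hEL i (g t i)
        exact h2
      · exact hFL t) hgen
  obtain ⟨d, ρ, hρ, hdtr, hdN⟩ := exists_rho _ y halg
  have hD : Module.finrank k (Submodule.span k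
      (insert (1 : K) (Set.range fun t => z t ^ p ^ e t))) =
      Module.finrank k (Submodule.span k
        (Set.range (pw p (Sum.elim e e') (Sum.elim z z')))) := by
    rw [hspan]
    have h1 : insert (1 : K) (Set.range fun t => z t ^ p ^ e t) = Set.range (pw p e z) := by
      ext v
      constructor
      · rintro (rfl | ⟨t, rfl⟩)
        · exact ⟨none, rfl⟩
        · exact ⟨some t, rfl⟩
      · rintro ⟨_ | t, rfl⟩
        · exact Or.inl rfl
        · exact Or.inr ⟨t, rfl⟩
    rw [h1]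
  have hdimR := hdim p k K (Fin s ⊕ I) (Sum.elim e e') (Sum.elim z z')
  have hdimn := hB.dimension
  rw [hdtr] at hdimn
  have hdimn' : n + Module.finrank k (Submodule.span k
      (insert (1 : K) (Set.range fun t => z t ^ p ^ e t))) ≤ d + (c + 1) := by
    exact_mod_cast hdimn
  rw [hD] at hdimn'
  have hNcard : N = Fintype.card (Fin s ⊕ I) + n := by
    rw [hN, Fintype.card_sum, Fintype.card_fin]
  have hc' : N - d ≤ c + d0 := by omega
  let ν : Fin (s + n) ↪ Fin N :=
    finSumFinEquiv.symm.toEmbedding.trans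
      ⟨Sum.elim (fun t => ε (Sum.inl (Sum.inl t))) (fun j => ε (Sum.inr j)), by
        rintro (t | t) (t' | t') htt
        · simpa using htt
        · simp at htt
        · simp at htt
        · simpa using htt⟩
  refine ⟨N, q', d, N - d, y, G', F', ρ, ν, ?_, ?_, ?_, ?_, hgen⟩
  · refine ⟨hB.surfaces, hB.products, hy0, ?_, ?_, by omega, hρ⟩
    · intro i
      change TH214.V.lv (GG (η.symm i)) (Sum.elim u y) = 0
      rcases η.symm i with j | j
      · change TH214.V.lv (exF (iota ε) (G j)) (Sum.elim u y) = 0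
        rw [exF_lv]
        have h1 : (fun j => Sum.elim u y (iota ε j)) = Sum.elim (Fin.append u z) x :=
          funext fun j => elim_iota ε u z z' x j
        rw [h1]
        exact hB.equations j
      · change TH214.V.lv (exF (zeta ε) (L j)) (Sum.elim u y) = 0
        rw [exF_lv]
        have h1 : (fun t => Sum.elim u y (zeta ε t)) = Sum.elim z z' := funext fun t => hyz t
        rw [h1]
        exact lp_value hform _ _ _ _ (hsp.1 j).1 (hsp.1 j).2
    · intro l ζ hζ hv
      rw [hrange]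
      exact hc'.trans (hcomb l ζ hζ (hvv l ζ hv)).1
  · intro l ζ hζ hv t hmem
    refine (hcomb l ζ hζ (hvv l ζ hv)).2 t (Or.inl trivial) ?_
    rw [hrange] at hmem
    refine Submodule.span_mono ?_ hmem
    refine Set.union_subset_union le_rfl ?_
    rintro v ⟨t', h1, h2⟩
    exact ⟨t', h1, Or.inl trivial, h2⟩
  · intro t
    change TH214.V.lv (exF (iota ε) (F t)) (Sum.elim u y) = _
    rw [exF_lv]
    have h1 : (fun j => Sum.elim u y (iota ε j)) = Sum.elim (Fin.append u z) x :=
      funext fun j => elim_iota ε u z z' x j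
    rw [h1]
    rfl
  · intro j
    obtain ⟨t | j, rfl⟩ := finSumFinEquiv.surjective j
    · rw [finSumFinEquiv_apply_left, Fin.append_left]
      change y (Sum.elim _ _ (finSumFinEquiv.symm (Fin.castAdd n t))) = _
      rw [finSumFinEquiv_symm_apply_castAdd]
      exact hyz _
    · rw [finSumFinEquiv_apply_right, Fin.append_right]
      change y (Sum.elim _ _ (finSumFinEquiv.symm (Fin.natAdd s j))) = _
      rw [finSumFinEquiv_symm_apply_natAdd]
      exact hyx _

/-- Models of the covers. -/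
theorem models (hsat : S_SAT.{u}) (hrank : S_RANK.{u}) (hform : S_FORM.{u})
    (hfam : S_FAM.{u}) (hdim : S_DIM.{u}) (hB : IsLeveledSystem E p c u e z x G)
    (hC : IsGeneratedBy E p u z x G f g F w) (S : Type) [Finite S] (v : S → K)
    (hv : ∀ b, IsProduct E (Fin.append z x) (v b)) :
    ∃ (T I : Type) (_ : Finite T) (_ : Fintype I) (M : LM (⊥ : Subalgebra k K) ⊤ T I)
      (Γ : S → I → ℤ), Fn M v Γ ∧ Frc M := by
  obtain ⟨N, q', d, c', y, G', F', ρ, ν, h1, h2, h3, h4, h5⟩ :=
    exists_schon hsat hrank hform hfam hdim hB hC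
  have hv' : ∀ b, IsProduct E y (v b) := by
    intro b
    obtain ⟨v0, e0, h6, h7⟩ := hv b
    refine ⟨v0, exE ν e0, h6, ?_⟩
    rw [h7, exE_prod]
    congr 1
    exact Finset.prod_congr rfl fun j _ => by rw [h4]
  have h3' : (fun t => value (F' t) u y) = fun t => value (F t) (Fin.append u z) x := funext h3
  rcases hC.roots with h | ⟨h, h'⟩
  · refine wild_models (E := E) (p := p) (c := c') (u := u) (y := y) (G := G') (ρ := ρ) (f := f)
      (F := F') (T := Set.univ) (w := w) ⟨h1, ?_, ?_, ?_, h5⟩ S v hv'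
    · intro l ζ hζ hvz t _ hmem
      refine h2 l ζ hζ hvz t (Submodule.span_mono ?_ hmem)
      refine Set.union_subset_union le_rfl ?_
      rintro v ⟨t', h8, -, h9⟩
      exact ⟨t', h8, h9⟩
    · intro t ht
      exact absurd (Set.mem_univ t) ht
    · rw [h3']
      exact h
  · refine insep_models (E := E) (p := p) (c := c') (u := u) (y := y) (G := G') (ρ := ρ) (g := g)
      (F := F') (w := w) ⟨h1, h2, h, ?_, h5⟩ S v hv'
    rw [h3']
    exact h'

end main

end Pool.Agent.N102.FL
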