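import Pool.Agent.TH214.SD.Defs

/-!
Project FL, second part (helper102): systems of linear relations with Frobenius levels over an
arbitrary field `E`: definitions.
-/

set_option autoImplicit false

universe u

open Pool.Agent.TH214.SD

namespace Pool.Agent.N102.FL

variable {k E K : Type u} [Field k] [Field E] [Field K] [Algebra k K] [Algebra E K]
  {h s n q : ℕ}

/-- The elements `z 1, ..., z s` and `x 1, ..., x n` of the extension `K` of `E` are the coordinates of
a relative schön system over a system of linear relations with Frobenius levels: `K` is generated
over `E` by the `z t` and `x j`; the `x j ≠ 0` satisfy the equations `G i ((v, z), x) = 0`, where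
the `v b` are nonzero elements of `E` and the `G i` are Laurent polynomials over the subfield `k`
which are schön of codimension at least `c` with respect to the last variables, relative to the
torus of the variables of `(v, z)`; and the only condition on the `z t ≠ 0` is the following: if `D`
is the dimension of the space over `k` which is generated by `1` and the powers
`z t ^ (p ^ e t)` (so that there are `s + 1 - D` independent linear relations between them), the
transcendence degree of `K` over `E` is at least `(D - 1) + (n - c)`. -/
structure IsLeveledSystemOver (p c : ℕ) (v : Fin h → E) (e : Fin s → ℕ) (z : Fin s → K)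
    (x : Fin n → K) (G : Fin q → (Fin (h + s) ⊕ Fin n → ℤ) →₀ k) : Prop where
  ne_zero : (∀ b, v b ≠ 0) ∧ (∀ t, z t ≠ 0) ∧ ∀ j, x j ≠ 0
  equations : ∀ i, value (G i) (Fin.append (fun b => algebraMap E K (v b)) z) x = 0
  schon : SchonEquations G c
  dimension : ((n + Module.finrank k (Submodule.span k
      (insert (1 : K) (Set.range fun t => z t ^ p ^ e t))) : ℕ) : Cardinal.{u}) ≤
    Algebra.trdeg E K + ((c + 1 : ℕ) : Cardinal.{u})
  generate : IntermediateField.adjoin E (Set.range z ∪ Set.range x) = ⊤

/-- For some `f ≥ 0` the element `g` is a linear combination, with coefficients in `k`, of `1` and of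
the powers `z t ^ (p ^ (e t - f))` with `e t ≥ f`. -/
def IsLinearForm (k : Type u) {K : Type u} [Field k] [Field K] [Algebra k K] {s : ℕ} (p : ℕ)
    (e : Fin s → ℕ) (z : Fin s → K) (g : K) : Prop :=
  ∃ f : ℕ, g ∈ Submodule.span k
    (insert (1 : K) {w | ∃ t, f ≤ e t ∧ w = z t ^ p ^ (e t - f)})

/-- The group of monomials: the subgroup of `Kˣ` which is generated by the nonzero elements of
`E`, by the `x j`, and by the nonzero linear combinations, with coefficients in `k`, of `1` and of
powers `z t ^ (p ^ (e t - f))` with `e t ≥ f`, for all `f ≥ 0`. -/
def monomials (k E : Type u) {K : Type u} [Field k] [Field E] [Field K] [Algebra k K]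
    [Algebra E K] {s n : ℕ} (p : ℕ) (e : Fin s → ℕ) (z : Fin s → K) (x : Fin n → K) :
    Subgroup Kˣ :=
  Subgroup.closure {u | (u : K) ∈ Set.range (algebraMap E K) ∨ (∃ j, (u : K) = x j) ∨
    IsLinearForm k p e z (u : K)}

end Pool.Agent.N102.FL
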