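import Pool.Agent.N531.FL.Sat
import Pool.Agent.N102.FL.LStm

/-!
The saturation of a system of terms, with the levels of the new roots (the proof is the one of
helper531 in `Pool.Agent.N531.FL.Sat`).
-/

set_option autoImplicit false
set_option linter.unusedSectionVars false

universe u

namespace Pool.Agent.N102.FL

open Pool.Agent.N531.FL

theorem t_sat2 : S_SAT2.{u} := by
  classical
  intro p _ k K _ _ _ _ _ T _ e z hz
  obtain ⟨N, hN⟩ : ∃ N : ℕ, ∀ t, e t ≤ N :=
    ⟨∑ t, e t, fun t => Finset.single_le_sum (fun _ _ => Nat.zero_le _) (Finset.mem_univ t)⟩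
  let J : Type u := Σ f : Fin (N + 1), {x : K // x ∈ newt k p e z f (UU k p e z f)}
  let φ : J ≃ Fin (Fintype.card J) := Fintype.equivFin J
  have hroot : ∀ j : J, ∃ g : K, g ^ p ^ (j.1 : ℕ) = (j.2 : K) := fun j =>
    root p e z (j.1 : ℕ) _ (newt_Vs p e z j.2.2).1
  choose g hg using hroot
  have hp : ∀ f : ℕ, p ^ f ≠ 0 := fun f => pow_ne_zero _ (Fact.out : p.Prime).ne_zero
  let e' : Fin (Fintype.card J) → ℕ := fun i => ((φ.symm i).1 : ℕ)
  let z' : Fin (Fintype.card J) → K := fun i => g (φ.symm i)
  have hterm : ∀ i, z' i ^ p ^ e' i = ((φ.symm i).2 : K) := fun i => hg (φ.symm i)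
  -- the high terms of the new system
  have hV : ∀ f, Vs k p (Sum.elim e e') (Sum.elim z z') f ≤ Vs k p e z f := by
    intro f
    unfold Vs
    rw [Submodule.span_le]
    rintro x ⟨o, ho, rfl⟩
    rw [SetLike.mem_coe]
    cases o with
    | none => exact Submodule.subset_span ⟨none, fun t ht => absurd ht (by simp), rfl⟩
    | some t =>
      cases t with
      | inl t =>
        refine Submodule.subset_span ⟨some t, ?_, rfl⟩
        intro t' ht'
        rw [Option.some.injEq] at ht'
        rw [← ht']
        exact ho (Sum.inl t) rfl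
      | inr i =>
        have h1 : f ≤ e' i := ho (Sum.inr i) rfl
        show z' i ^ p ^ e' i ∈ _
        rw [hterm]
        exact Vs_anti p e z h1 (newt_Vs p e z (φ.symm i).2.2).1
  refine ⟨Fin (Fintype.card J), inferInstance, e', z', ?_, ?_, ?_, ?_⟩
  · intro i hi
    have h1 := hterm i
    rw [hi, zero_pow (hp _)] at h1
    exact (newt_Vs p e z (φ.symm i).2.2).2 h1.symm
  · intro i
    rw [hterm]
    refine Submodule.span_mono ?_ (newt_Vs p e z (φ.symm i).2.2).1
    rintro x ⟨o, ho, rfl⟩
    cases o with
    | none => exact Or.inl rfl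
    | some t => exact Or.inr ⟨t, ho t rfl, rfl⟩
  · apply le_antisymm
    · rw [Submodule.span_le]
      rintro x ⟨o, rfl⟩
      have h1 : pw p (Sum.elim e e') (Sum.elim z z') o ∈
          Vs k p (Sum.elim e e') (Sum.elim z z') 0 :=
        Submodule.subset_span ⟨o, fun _ _ => Nat.zero_le _, rfl⟩
      have h2 := hV 0 h1
      exact Submodule.span_mono (Set.image_subset_range _ _) h2
    · rw [Submodule.span_le]
      rintro x ⟨o, rfl⟩
      apply Submodule.subset_span
      cases o with
      | none => exact ⟨none, rfl⟩
      | some t => exact ⟨some (Sum.inl t), rfl⟩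
  · apply sat_of
    intro f Q hQ σ hσ1 hσ2
    rcases le_or_gt f N with hf | hf
    · -- the terms of `Q`
      have hQU : (pw p (Sum.elim e e') (Sum.elim z z') '' (some '' Q)) ⊆
          (UU k p e z f : Set K) := by
        rintro x ⟨o, ⟨t, ht, rfl⟩, rfl⟩
        have h1 := hQ t ht
        cases t with
        | inl t => exact old_mem p e z t h1
        | inr i =>
          show z' i ^ p ^ e' i ∈ _
          rw [hterm]
          exact new_mem p e z h1 (φ.symm i).2.2
      have hfin : (pw p (Sum.elim e e') (Sum.elim z z') '' (some '' Q)).Finite :=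
        (UU k p e z f).finite_toSet.subset hQU
      obtain ⟨Q', hQ'⟩ : ∃ Q' : Finset K, Q' = hfin.toFinset := ⟨_, rfl⟩
      have hQ'2 : (Q' : Set K) = pw p (Sum.elim e e') (Sum.elim z z') '' (some '' Q) := by
        rw [hQ', Set.Finite.coe_toFinset]
      have hL : Ls k p (Sum.elim e e') (Sum.elim z z') Q = Submodule.span k (Q' : Set K) := by
        rw [hQ'2]; rfl
      have hFG : (Vs k p e z f ⊓ Submodule.span k (Q' : Set K)).FG :=
        Submodule.FG.of_le ⟨Q', rfl⟩ inf_le_right
      have h3 : σ ∈ Vs k p e z f ⊓ Submodule.span k (Q' : Set K) :=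
        ⟨hV f hσ1, by rw [← hL]; exact hσ2⟩
      rw [← span_gen _ hFG] at h3
      refine Submodule.span_mono ?_ h3
      intro x hx
      have hxn : x ∈ newt k p e z f (UU k p e z f) := by
        unfold newt
        rw [Finset.mem_biUnion]
        refine ⟨Q', ?_, hx⟩
        rw [Finset.mem_powerset]
        intro y hy
        apply hQU
        rw [← hQ'2]
        exact hy
      let j : J := ⟨⟨f, Nat.lt_succ_of_le hf⟩, ⟨x, hxn⟩⟩
      have hj : pw p (Sum.elim e e') (Sum.elim z z') (some (Sum.inr (φ j))) = x := by
        show z' (φ j) ^ p ^ e' (φ j) = x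
        rw [hterm, Equiv.symm_apply_apply]
      refine ⟨some (Sum.inr (φ j)), ⟨?_, ?_⟩, hj⟩
      · intro t ht
        rw [Option.some.injEq] at ht
        rw [← ht]
        show f ≤ e' (φ j)
        simp only [e', Equiv.symm_apply_apply]
        exact le_rfl
      · rw [hj, hL]
        exact (gen_mem _ hx).2
    · -- no variables of level at least `f`
      have h1 : high (Sum.elim e e') f ⊆ {none} := by
        intro o ho
        cases o with
        | none => rfl
        | some t =>
          exfalso
          have h2 := ho t rfl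
          cases t with
          | inl t =>
            have : f ≤ e t := h2
            have := hN t
            omega
          | inr i =>
            have h3 : f ≤ ((φ.symm i).1 : ℕ) := h2
            have := (φ.symm i).1.2
            omega
      have h2 : σ ∈ Submodule.span k ({(1 : K)} : Set K) := by
        refine Submodule.span_mono ?_ hσ1
        rintro x ⟨o, ho, rfl⟩
        have := h1 ho
        rw [Set.mem_singleton_iff] at this
        rw [this]; rfl
      rw [Submodule.mem_span_singleton] at h2
      obtain ⟨a, ha⟩ := h2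
      rcases eq_or_ne a 0 with ha0 | ha0
      · rw [← ha, ha0, zero_smul]; exact Submodule.zero_mem _
      · have h3 : (1 : K) ∈ Ls k p (Sum.elim e e') (Sum.elim z z') Q := by
          have : (1 : K) = a⁻¹ • σ := by rw [← ha, smul_smul, inv_mul_cancel₀ ha0, one_smul]
          rw [this]
          exact Submodule.smul_mem _ _ hσ2
        rw [← ha]
        apply Submodule.smul_mem
        apply Submodule.subset_span
        exact ⟨none, ⟨fun t ht => absurd ht (by simp), h3⟩, rfl⟩

end Pool.Agent.N102.FL
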