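import Pool.Agent.N102.FL.Final
import Pool.Agent.N102.FL.LDefs
import Pool.Agent.N102.FL.LStm
import Pool.Agent.N102.FL.Sat2
import Pool.Agent.N40.FL.Piv
import Pool.Agent.N40.FL.Ech
import Pool.Agent.N40.FL.Fam
import Pool.Agent.N40.FL.Dim
import Pool.Agent.N608.FL.Form
import Pool.Agent.N954.FL.Lift
import Pool.Agent.N56.FL.Span
import Pool.Agent.N456.FL.Rank

/-!
Project FL, second part (helper102): the system of equations at a valuation.
-/

set_option autoImplicit false
set_option linter.unusedVariables false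
set_option linter.unusedSectionVars false

universe u

open Pool.Agent.TH214.SD Pool.Agent.TH214.V Pool.Agent.W418.LU2

namespace Pool.Agent.N102.FL

section emb

variable {h s n b : ℕ} {I : Type}

/-- The variables of the relative system among all variables. -/
def iotF (I : Type) (b : ℕ) : (Fin h ⊕ Fin s) ⊕ Fin n →
    Fin h ⊕ (((Fin s ⊕ Fin b) ⊕ I) ⊕ Fin n) :=
  Sum.elim (Sum.map id fun t => Sum.inl (Sum.inl (Sum.inl t))) fun j => Sum.inr (Sum.inr j)

lemma iotF_injective : Function.Injective (iotF (h := h) (s := s) (n := n) I b) := by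
  rintro ((a | a) | a) ((b | b) | b) hab
  · simp only [iotF, Sum.elim_inl, Sum.map_inl, id_eq, Sum.inl.injEq] at hab
    rw [hab]
  · simp [iotF] at hab
  · simp [iotF] at hab
  · simp [iotF] at hab
  · simp only [iotF, Sum.elim_inl, Sum.map_inr, Sum.inr.injEq, Sum.inl.injEq] at hab
    rw [hab]
  · simp [iotF] at hab
  · simp [iotF] at hab
  · simp [iotF] at hab
  · simp only [iotF, Sum.elim_inr, Sum.inr.injEq] at hab
    rw [hab]

/-- The embedding of the variables of the relative system. -/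
def iot (I : Type) (b : ℕ) :
    (Fin (h + s) ⊕ Fin n) ↪ Fin h ⊕ (((Fin s ⊕ Fin b) ⊕ I) ⊕ Fin n) :=
  (Equiv.sumCongr finSumFinEquiv.symm (Equiv.refl (Fin n))).toEmbedding.trans
    ⟨iotF I b, iotF_injective⟩

/-- The embedding of the variables of the leveled system. -/
def zet (h n : ℕ) (T : Type) : T ↪ Fin h ⊕ (T ⊕ Fin n) :=
  ⟨fun t => Sum.inr (Sum.inl t), fun a b hab => by simpa using hab⟩

lemma elim_iot {K : Type u} (v : Fin h → K) (z : Fin s → K) (g : Fin b → K)
    (z' : I → K) (x : Fin n → K) (j : Fin (h + s) ⊕ Fin n) :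
    Sum.elim v (Sum.elim (Sum.elim (Sum.elim z g) z') x) (iot I b j) =
      Sum.elim (Fin.append v z) x j := by
  rcases j with c | j
  · obtain ⟨c', rfl⟩ := finSumFinEquiv.surjective c
    have h1 : iot I b (Sum.inl (finSumFinEquiv c') : Fin (h + s) ⊕ Fin n) =
        iotF I b (Sum.inl c') := by
      change iotF I b (Sum.inl (finSumFinEquiv.symm (finSumFinEquiv c'))) = _
      rw [Equiv.symm_apply_apply]
    rw [h1]
    rcases c' with a | t
    · simp [iotF]
    · simp [iotF]
  · rfl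

end emb

section roots

variable {k K : Type u} [Field k] [Field K] [Algebra k K] {p : ℕ} [Fact p.Prime] [CharP k p]
  [PerfectRing k p] {s : ℕ} {e : Fin s → ℕ} {z : Fin s → K}

/-- A linear form, in terms of its power. -/
lemma pow_mem_of_form {g : K} {f : ℕ} (hg : g ∈ Submodule.span k
    (insert (1 : K) {w | ∃ t, f ≤ e t ∧ w = z t ^ p ^ (e t - f)})) :
    g ^ p ^ f ∈ Submodule.span k (insert 1 {w | ∃ t, f ≤ e t ∧ z t ^ p ^ e t = w}) := by
  have hp : p.Prime := Fact.out
  have hcK : CharP K p := charP_of_injective_algebraMap (algebraMap k K).injective p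
  have : ExpChar K p := ExpChar.prime hp
  induction hg using Submodule.span_induction with
  | mem x hx =>
    rcases hx with rfl | ⟨t, h1, rfl⟩
    · rw [one_pow]
      exact Submodule.subset_span (Or.inl rfl)
    · refine Submodule.subset_span (Or.inr ⟨t, h1, ?_⟩)
      rw [← pow_mul, ← pow_add, Nat.sub_add_cancel h1]
  | zero =>
    rw [zero_pow (pow_ne_zero f hp.ne_zero)]
    exact Submodule.zero_mem _
  | add x y _ _ hx hy =>
    rw [add_pow_char_pow]
    exact Submodule.add_mem _ hx hy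
  | smul a x _ hx =>
    rw [Algebra.smul_def, mul_pow, ← map_pow, ← Algebra.smul_def]
    exact Submodule.smul_mem _ _ hx

/-- Conversely, an element with such a power is a linear form, since `k` is perfect. -/
lemma form_of_pow_mem {g : K} {f : ℕ}
    (hg : g ^ p ^ f ∈ Submodule.span k (insert 1 {w | ∃ t, f ≤ e t ∧ z t ^ p ^ e t = w})) :
    g ∈ Submodule.span k (insert (1 : K) {w | ∃ t, f ≤ e t ∧ w = z t ^ p ^ (e t - f)}) := by
  have hp : p.Prime := Fact.out
  have hcK : CharP K p := charP_of_injective_algebraMap (algebraMap k K).injective p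
  have : ExpChar K p := ExpChar.prime hp
  have key : ∀ w ∈ Submodule.span k (insert (1 : K) {w | ∃ t, f ≤ e t ∧ z t ^ p ^ e t = w}),
      ∃ g' ∈ Submodule.span k (insert (1 : K) {w | ∃ t, f ≤ e t ∧ w = z t ^ p ^ (e t - f)}),
        g' ^ p ^ f = w := by
    intro w hw
    induction hw using Submodule.span_induction with
    | mem x hx =>
      rcases hx with rfl | ⟨t, h1, rfl⟩
      · exact ⟨1, Submodule.subset_span (Or.inl rfl), one_pow _⟩
      · refine ⟨z t ^ p ^ (e t - f), Submodule.subset_span (Or.inr ⟨t, h1, rfl⟩), ?_⟩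
        rw [← pow_mul, ← pow_add, Nat.sub_add_cancel h1]
    | zero => exact ⟨0, Submodule.zero_mem _, zero_pow (pow_ne_zero f hp.ne_zero)⟩
    | add x y _ _ hx hy =>
      obtain ⟨x', hx1, hx2⟩ := hx
      obtain ⟨y', hy1, hy2⟩ := hy
      exact ⟨x' + y', Submodule.add_mem _ hx1 hy1, by rw [add_pow_char_pow, hx2, hy2]⟩
    | smul a x _ hx =>
      obtain ⟨x', hx1, hx2⟩ := hx
      refine ⟨rt p f a • x', Submodule.smul_mem _ _ hx1, ?_⟩
      rw [Algebra.smul_def, mul_pow, ← map_pow, rt_pow, hx2, Algebra.smul_def]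
  obtain ⟨g', h1, h2⟩ := key _ hg
  have h3 : g = g' := by
    have := iterateFrobenius_inj K p f (a₁ := g) (a₂ := g') (by
      rw [iterateFrobenius_def, iterateFrobenius_def]
      exact h2.symm)
    exact this
  rw [h3]
  exact h1

end roots

section field

variable {E K : Type u} [Field E] [Field K] [Algebra E K] {Θ : Type} [Fintype Θ] {y : Θ → K}

lemma gen_ph (hgen : IntermediateField.adjoin E (Set.range y) = ⊤) (w : K) :
    ∃ a b : MvPolynomial Θ E, ph (E := E) y b ≠ 0 ∧ w * ph (E := E) y b = ph (E := E) y a := by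
  have h1 : w ∈ IntermediateField.adjoin E (Set.range y) := by
    rw [hgen]
    trivial
  obtain ⟨r, t, hrt⟩ := (IntermediateField.mem_adjoin_range_iff (F := E) y w).1 h1
  by_cases ht : MvPolynomial.aeval y t = 0
  · refine ⟨0, 1, ?_, ?_⟩
    · rw [map_one]
      exact one_ne_zero
    · rw [hrt, ht, div_zero, zero_mul, map_zero]
  · refine ⟨r, t, ht, ?_⟩
    rw [hrt]
    exact div_mul_cancel₀ _ ht

lemma trdeg_nat (hgen : IntermediateField.adjoin E (Set.range y) = ⊤) :
    ∃ d : ℕ, Algebra.trdeg E K = (d : Cardinal.{u}) ∧ d ≤ Fintype.card Θ := by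
  classical
  have halg : Algebra.IsAlgebraic (IntermediateField.adjoin E (Set.range y)) K := by
    refine ⟨fun w => ?_⟩
    have h1 : w ∈ IntermediateField.adjoin E (Set.range y) := by
      rw [hgen]
      trivial
    exact isAlgebraic_algebraMap (⟨w, h1⟩ : IntermediateField.adjoin E (Set.range y))
  have halg' : Algebra.IsAlgebraic (Algebra.adjoin E (Set.range y)) K := by
    open scoped IntermediateField.algebraAdjoinAdjoin in
    exact (IsFractionRing.comap_isAlgebraic_iff (A := Algebra.adjoin E (Set.range y))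
      (K := IntermediateField.adjoin E (Set.range y)) (C := K)).2 halg
  obtain ⟨t, ht, hbt⟩ := exists_isTranscendenceBasis_subset (R := E) (Set.range y)
  have htf : t.Finite := (Set.finite_range y).subset ht
  have : Fintype t := htf.fintype
  choose ρ0 hρ0 using fun a : t => ht a.2
  refine ⟨Fintype.card t, ?_, ?_⟩
  · rw [← hbt.cardinalMk_eq_trdeg]
    exact Cardinal.mk_fintype t
  · refine Fintype.card_le_of_injective ρ0 ?_
    intro a b hab
    apply Subtype.ext
    rw [← hρ0 a, ← hρ0 b, hab]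

end field

section main

variable {p : ℕ} [Fact p.Prime] {k E K : Type u} [Field k] [PerfectField k] [CharP k p] [Field E]
  [Field K] [Algebra k E] [Algebra k K] [Algebra E K] [IsScalarTower k E K] {h s n q c : ℕ}
  {v : Fin h → E} {e : Fin s → ℕ} {z : Fin s → K} {x : Fin n → K}
  {G : Fin q → (Fin (h + s) ⊕ Fin n → ℤ) →₀ k}

theorem exists_system (hsys : S_SYS.{u})
    (hB : IsLeveledSystemOver (E := E) p c v e z x G) (V : ValuationSubring K)
    (hkV : ∀ a : k, algebraMap k K a ∈ V) (b : ℕ) (g : Fin b → K) (hg0 : ∀ i, g i ≠ 0)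
    (hg : ∀ i, IsLinearForm k p e z (g i)) :
    ∃ (Θ : Type) (_ : Fintype Θ) (y : Θ → K) (𝒮 : Sys E Θ), (∀ θ, y θ ≠ 0) ∧
      (∀ w : K, ∃ a b : MvPolynomial Θ E, ph (E := E) y b ≠ 0 ∧
        w * ph (E := E) y b = ph (E := E) y a) ∧
      OkJ 𝒮 y V ∧ (∀ k i, 𝒮.c k i ≠ 0) ∧
      (Algebra.trdeg E K + (Fintype.card 𝒮.κ : Cardinal.{u}) = Fintype.card Θ) ∧
      (∀ θ, (∃ j, y θ = x j) ∨ IsLinearForm k p e z (y θ)) ∧
      (∀ j, ∃ θ, y θ = x j) ∧ (∀ i, ∃ θ, y θ = g i) := by
  classical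
  have hp : p.Prime := Fact.out
  have hcK : CharP K p := charP_of_injective_algebraMap (algebraMap k K).injective p
  have : ExpChar k p := ExpChar.prime hp
  have : PerfectRing k p := PerfectField.toPerfectRing p
  choose f hf using hg
  have hf' : ∀ i, g i ^ p ^ f i ∈
      Submodule.span k (insert 1 {w | ∃ t, f i ≤ e t ∧ z t ^ p ^ e t = w}) :=
    fun i => pow_mem_of_form (hf i)
  have hzg : ∀ t, Sum.elim z g t ≠ 0 := by
    rintro (t | i)
    · exact hB.ne_zero.2.1 t
    · exact hg0 i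
  obtain ⟨I, _, e', z', hz', hroot, hspan, hS⟩ :=
    t_sat2 p k K (Fin s ⊕ Fin b) (Sum.elim e f) (Sum.elim z g) hzg
  -- all spans are generated by the terms of the original system
  have hsub : ∀ f' : ℕ, Submodule.span k
      (insert (1 : K) {w | ∃ t, f' ≤ Sum.elim e f t ∧ Sum.elim z g t ^ p ^ Sum.elim e f t = w}) ≤
      Submodule.span k (insert 1 {w | ∃ t, f' ≤ e t ∧ z t ^ p ^ e t = w}) := by
    intro f'
    rw [Submodule.span_le]
    rintro w (rfl | ⟨t | i, h1, rfl⟩)
    · exact Submodule.subset_span (Or.inl rfl)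
    · exact Submodule.subset_span (Or.inr ⟨t, h1, rfl⟩)
    · refine Submodule.span_mono ?_ (hf' i)
      refine Set.insert_subset_insert ?_
      rintro w ⟨t, h2, rfl⟩
      exact ⟨t, le_trans h1 h2, rfl⟩
  have hroot' : ∀ i, IsLinearForm k p e z (z' i) := fun i =>
    ⟨e' i, form_of_pow_mem (hsub _ (hroot i))⟩
  obtain ⟨Ix, _, fx, cx, hsp⟩ := N40.FL.t_fam k ((Fin s ⊕ Fin b) ⊕ I)
    (Sum.elim (Sum.elim e f) e')
    (Rel k p (Sum.elim (Sum.elim e f) e') (Sum.elim (Sum.elim z g) z'))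
  set d0 := Module.finrank k
    (Rel k p (Sum.elim (Sum.elim e f) e') (Sum.elim (Sum.elim z g) z')) with hd0
  have hrk : S_RANK.{u} := N456.FL.t_rank N40.FL.t_piv N40.FL.t_ech N954.FL.t_lift N56.FL.t_span
  let L : Ix → (((Fin s ⊕ Fin b) ⊕ I) → ℤ) →₀ k :=
    fun i => LP p (Sum.elim (Sum.elim e f) e') (fx i) (cx i)
  have hL : ∀ (l : ((Fin s ⊕ Fin b) ⊕ I) → ℤ) (z : ((Fin s ⊕ Fin b) ⊕ I) → AlgebraicClosure k),
      (∀ t, z t ≠ 0) →
      (∀ i, TH214.vl (L i) l z = 0) → d0 ≤ Module.finrank (AlgebraicClosure k)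
        (Submodule.span (AlgebraicClosure k) (Set.range fun i =>
          TH214.V.gv (L i) (Function.Embedding.refl ((Fin s ⊕ Fin b) ⊕ I)) l z)) := by
    intro l ζ hζ hv
    have h1 : ∀ i, vL p (Sum.elim (Sum.elim e f) e') (fx i) (cx i) l ζ = 0 := by
      intro i
      rw [← (t_form p k (AlgebraicClosure k) _ _ (fx i) (cx i) (hsp.1 i).2 l ζ).1]
      exact hv i
    have h2 := hrk p k (AlgebraicClosure k) _ _ _ Ix fx cx l ζ hS hsp hζ h1
    have h3 : (fun i => TH214.V.gv (L i) (Function.Embedding.refl ((Fin s ⊕ Fin b) ⊕ I)) l ζ) =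
        fun i => gL p (Sum.elim (Sum.elim e f) e') (fx i) (cx i) l ζ := by
      funext i
      exact (t_form p k (AlgebraicClosure k) _ _ (fx i) (cx i) (hsp.1 i).2 l ζ).2.1
    rw [h3]
    exact h2
  have hND0 : NDVc G (fun t : Empty => t.elim)
      (Function.Embedding.inr : Fin n ↪ Fin (h + s) ⊕ Fin n) (fun _ => True) c := by
    intro l ζ hζ hv
    exact ⟨hB.schon l ζ hζ hv, fun t => t.elim⟩
  have hcomb := comb G (fun t : Empty => t.elim) _ (fun _ => True) c hND0 L d0 hL
    (iot (h := h) I b) (zet h n ((Fin s ⊕ Fin b) ⊕ I)) Function.Embedding.inr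
    (Function.Embedding.inr : Fin n ↪ ((Fin s ⊕ Fin b) ⊕ I) ⊕ Fin n) (fun b => rfl)
    (Function.Embedding.inl : ((Fin s ⊕ Fin b) ⊕ I) ↪ ((Fin s ⊕ Fin b) ⊕ I) ⊕ Fin n)
    (fun t => rfl) (by
      intro b t hbt
      simp at hbt)
  set GG : Fin q ⊕ Ix → (Fin h ⊕ (((Fin s ⊕ Fin b) ⊕ I) ⊕ Fin n) → ℤ) →₀ k :=
    Sum.elim (fun s => exF (iot I b) (G s))
      (fun i => exF (zet h n ((Fin s ⊕ Fin b) ⊕ I)) (L i)) with hGG
  have hndv := ndv_of_ndvc hcomb
  let y : ((Fin s ⊕ Fin b) ⊕ I) ⊕ Fin n → K := Sum.elim (Sum.elim (Sum.elim z g) z') x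
  have hy0 : ∀ θ, y θ ≠ 0 := by
    rintro (((t | i) | i) | j)
    · exact hB.ne_zero.2.1 t
    · exact hg0 i
    · exact hz' i
    · exact hB.ne_zero.2.2 j
  have hgen : IntermediateField.adjoin E (Set.range y) = ⊤ := by
    rw [eq_top_iff, ← hB.generate]
    refine IntermediateField.adjoin.mono E _ _ (Set.union_subset ?_ ?_)
    · rintro _ ⟨t, rfl⟩
      exact ⟨Sum.inl (Sum.inl (Sum.inl t)), rfl⟩
    · rintro _ ⟨j, rfl⟩
      exact ⟨Sum.inr j, rfl⟩
  obtain ⟨d, hd, hdΘ⟩ := trdeg_nat hgen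
  -- the dimension
  have hD : Module.finrank k (Submodule.span k
      (insert (1 : K) (Set.range fun t => z t ^ p ^ e t))) =
      Module.finrank k (Submodule.span k
        (Set.range (pw p (Sum.elim (Sum.elim e f) e') (Sum.elim (Sum.elim z g) z')))) := by
    rw [hspan]
    have h1 : Submodule.span k (insert (1 : K) (Set.range fun t => z t ^ p ^ e t)) =
        Submodule.span k (Set.range (pw p (Sum.elim e f) (Sum.elim z g))) := by
      refine le_antisymm ?_ ?_
      · rw [Submodule.span_le]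
        rintro w (rfl | ⟨t, rfl⟩)
        · exact Submodule.subset_span ⟨none, rfl⟩
        · exact Submodule.subset_span ⟨some (Sum.inl t), rfl⟩
      · rw [Submodule.span_le]
        rintro w ⟨_ | t | i, rfl⟩
        · exact Submodule.subset_span (Or.inl rfl)
        · exact Submodule.subset_span (Or.inr ⟨t, rfl⟩)
        · refine Submodule.span_mono ?_ (hf' i)
          refine Set.insert_subset_insert ?_
          rintro w ⟨t, h2, rfl⟩
          exact ⟨t, rfl⟩
    rw [h1]
  have hdimR := N40.FL.t_dim p k K ((Fin s ⊕ Fin b) ⊕ I) (Sum.elim (Sum.elim e f) e')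
    (Sum.elim (Sum.elim z g) z')
  have hdimn := hB.dimension
  rw [hd] at hdimn
  have hdimn' : n + Module.finrank k (Submodule.span k
      (insert (1 : K) (Set.range fun t => z t ^ p ^ e t))) ≤ d + (c + 1) := by
    exact_mod_cast hdimn
  rw [hD] at hdimn'
  have hcard : Fintype.card (((Fin s ⊕ Fin b) ⊕ I) ⊕ Fin n) =
      Fintype.card ((Fin s ⊕ Fin b) ⊕ I) + n := by
    rw [Fintype.card_sum, Fintype.card_fin]
  have hc' : Fintype.card (((Fin s ⊕ Fin b) ⊕ I) ⊕ Fin n) - d ≤ c + d0 := by omega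
  have hval : ∀ i, FL.lv (GG i) (Sum.elim (fun b => algebraMap E K (v b)) y) = 0 := by
    rintro (i | i)
    · change TH214.V.lv (exF (iot I b) (G i)) (Sum.elim (fun b => algebraMap E K (v b)) y) = 0
      rw [exF_lv]
      have h1 : (fun j => Sum.elim (fun b => algebraMap E K (v b)) y (iot I b j)) =
          Sum.elim (Fin.append (fun b => algebraMap E K (v b)) z) x :=
        funext fun j => elim_iot (fun b => algebraMap E K (v b)) z g z' x j
      rw [h1]
      exact hB.equations i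
    · change TH214.V.lv (exF (zet h n _) (L i)) (Sum.elim (fun b => algebraMap E K (v b)) y) = 0
      rw [exF_lv]
      exact lp_value t_form _ _ _ _ (hsp.1 i).1 (hsp.1 i).2
  obtain ⟨𝒮, h1, h2, h3⟩ := hsys k E K V hkV (Fin h) (((Fin s ⊕ Fin b) ⊕ I) ⊕ Fin n) v y
    hB.ne_zero.1 hy0 (Fin q ⊕ Ix) GG hval
    (Fintype.card (((Fin s ⊕ Fin b) ⊕ I) ⊕ Fin n) - d) (by
      intro κ _ _ l ζ hζ hvζ
      obtain ⟨⟨t, a, ha1, ha2⟩, -⟩ := hndv κ l ζ hζ hvζ
      refine ⟨fun i => t (Fin.castLE hc' i), fun i => a (Fin.castLE hc' i), ?_, ?_⟩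
      · intro i b
        refine ha1 _ _ ?_
        rintro ⟨w, hw⟩
        simp at hw
      · intro i j
        have h4 := ha2 (Fin.castLE hc' i) (Fin.castLE hc' j)
        simp only [Fin.castLE_inj] at h4
        exact h4)
  refine ⟨_, _, y, 𝒮, hy0, gen_ph hgen, h2, h3, ?_, ?_, ?_, ?_⟩
  · rw [hd, h1, ← Nat.cast_add, Nat.add_sub_cancel' hdΘ]
  · rintro (((t | i) | i) | j)
    · right
      refine ⟨e t, Submodule.subset_span (Or.inr ⟨t, le_rfl, ?_⟩)⟩
      rw [Nat.sub_self, pow_zero, pow_one]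
      rfl
    · exact Or.inr ⟨f i, hf i⟩
    · exact Or.inr (hroot' i)
    · exact Or.inl ⟨j, rfl⟩
  · intro j
    exact ⟨Sum.inr j, rfl⟩
  · intro i
    exact ⟨Sum.inl (Sum.inl (Sum.inr i)), rfl⟩

end main

end Pool.Agent.N102.FL
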